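import Pool.Agent.Helper97.CG.Stmts

set_option autoImplicit false

/-!
# Block P, LIFT-P: symmetric idempotents and products of reflections
-/

namespace Pool.Agent.Helper96.SPN

open Matrix Pool.Agent.Helper97.CG

universe u

section

variable {k : Type u} [Field k] {n : Type} [Fintype n] [DecidableEq n]

/-- rank factorisation of an idempotent -/
lemma idem_factor {P : Matrix n n k} (hP : P * P = P) :
    ∃ (m : ℕ) (W : Matrix n (Fin m) k) (W' : Matrix (Fin m) n k), W * W' = P ∧ W' * W = 1 := by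
  let f : (n → k) →ₗ[k] (n → k) := P.mulVecLin
  let b := Module.finBasis k (LinearMap.range f)
  refine ⟨Module.finrank k (LinearMap.range f), Matrix.of fun i j => (b j : n → k) i,
    Matrix.of fun j i => b.repr (f.rangeRestrict (Pi.single i 1)) j, ?_, ?_⟩
  · ext i j
    have h1 := b.sum_repr (f.rangeRestrict (Pi.single j 1))
    have h2 := congrArg (fun z : LinearMap.range f => (z : n → k) i) h1
    simp only [Submodule.coe_sum, Submodule.coe_smul, Finset.sum_apply, Pi.smul_apply,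
      smul_eq_mul] at h2
    rw [Matrix.mul_apply]
    have h3 : ((f.rangeRestrict (Pi.single j 1) : LinearMap.range f) : n → k) i = P i j := by
      show (P *ᵥ Pi.single j 1) i = _
      rw [Matrix.mulVec_single_one]
      rfl
    rw [← h3, ← h2]
    exact Finset.sum_congr rfl fun l _ => mul_comm _ _
  · have h1 : ∀ v : n → k, ∀ l, ((Matrix.of fun j i => b.repr (f.rangeRestrict (Pi.single i 1)) j :
        Matrix (Fin (Module.finrank k (LinearMap.range f))) n k) *ᵥ v) l =
        b.repr (f.rangeRestrict v) l := by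
      intro v l
      have h2 : v = ∑ i, v i • (Pi.single i 1 : n → k) := by
        ext i
        rw [Finset.sum_apply, Finset.sum_eq_single i]
        · simp
        · intro j _ hj
          simp [Pi.single_eq_of_ne hj.symm]
        · intro hi
          exact absurd (Finset.mem_univ _) hi
      conv_rhs => rw [h2]
      simp only [map_sum, map_smul, Finsupp.coe_finsetSum, Finset.sum_apply, Finsupp.smul_apply,
        smul_eq_mul, Matrix.mulVec, dotProduct, Matrix.of_apply]
      exact Finset.sum_congr rfl fun l _ => mul_comm _ _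
    ext i j
    have h2 := h1 (b j : n → k) i
    rw [Matrix.mul_apply]
    have h3 : f.rangeRestrict (b j : n → k) = b j := by
      apply Subtype.ext
      obtain ⟨w, hw⟩ := (b j).2
      rw [← hw]
      show P *ᵥ (P *ᵥ w) = P *ᵥ w
      rw [Matrix.mulVec_mulVec, hP]
    rw [h3, b.repr_self] at h2
    simp only [Matrix.mulVec, dotProduct] at h2
    refine h2.trans ?_
    rw [Finsupp.single_apply, Matrix.one_apply]
    by_cases hij : i = j
    · rw [if_pos hij, if_pos hij.symm]
    · rw [if_neg hij, if_neg (Ne.symm hij)]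

/-- A symmetric idempotent is `U Uᵀ` with `Uᵀ U = 1`. -/
theorem proj_factor [IsAlgClosed k] [CharZero k] (hE : ST_EQV k) {P : Matrix n n k}
    (hP : P * P = P) (hPt : Pᵀ = P) :
    ∃ (m : ℕ) (U : Matrix n (Fin m) k), Uᵀ * U = 1 ∧ U * Uᵀ = P := by
  obtain ⟨m, W, W', h1, h2⟩ := idem_factor hP
  have hW : P * W = W := by rw [← h1, Matrix.mul_assoc, h2, Matrix.mul_one]
  have hWt : Wᵀ * P = Wᵀ := by
    have h3 := congrArg transpose hW
    rwa [transpose_mul, hPt] at h3
  have hG : Wᵀ * W * (W' * W'ᵀ) = 1 := by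
    calc Wᵀ * W * (W' * W'ᵀ) = Wᵀ * (W * W') * W'ᵀ := by simp only [Matrix.mul_assoc]
      _ = (W' * W)ᵀ := by rw [h1, hWt, transpose_mul]
      _ = 1 := by rw [h2, transpose_one]
  have hGd : (Wᵀ * W).det ≠ 0 := by
    intro h0
    have h3 := congrArg det hG
    rw [det_mul, h0, zero_mul, det_one] at h3
    exact zero_ne_one h3
  have hf : IsForm 1 (Wᵀ * W) := by
    refine ⟨Or.inl rfl, ?_, hGd⟩
    rw [transpose_mul, transpose_transpose, one_smul]
  have hf1 : IsForm 1 (1 : Matrix (Fin m) (Fin m) k) := by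
    refine ⟨Or.inl rfl, ?_, ?_⟩
    · rw [transpose_one, one_smul]
    · rw [det_one]; exact one_ne_zero
  obtain ⟨d, hd⟩ := hE (Fin m) (Fin m) 1 _ _ hf hf1 rfl
  refine ⟨m, W * d, ?_, ?_⟩
  · rw [transpose_mul, ← hd]
    simp only [Matrix.mul_assoc]
  · -- `d dᵀ` is the inverse of the Gram matrix
    have h3 : d * (dᵀ * (Wᵀ * W)) = 1 := mul_eq_one_comm.mp hd
    have h4 : d * dᵀ = W' * W'ᵀ := by
      calc d * dᵀ = d * (dᵀ * (Wᵀ * W)) * (W' * W'ᵀ) := by
            have h5 : d * (dᵀ * (Wᵀ * W)) * (W' * W'ᵀ) = d * (dᵀ * (Wᵀ * W * (W' * W'ᵀ))) := by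
              simp only [Matrix.mul_assoc]
            rw [h5, hG, Matrix.mul_one]
        _ = W' * W'ᵀ := by rw [h3, Matrix.one_mul]
    calc W * d * (W * d)ᵀ = W * (d * dᵀ) * Wᵀ := by
          rw [transpose_mul]; simp only [Matrix.mul_assoc]
      _ = (W * W') * (W * W')ᵀ := by
          rw [h4, transpose_mul]; simp only [Matrix.mul_assoc]
      _ = P := by rw [h1, hPt, hP]

/-- the reflection in a vector `v` with `v · v = -1` -/
def rf (v : n → k) : Matrix n n k := 1 + (2 : k) • vecMulVec v v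

/-- Orthogonal matrices which are the identity on the kernel of the symmetric idempotent `P` are
products of reflections in vectors of its image. -/
theorem proj_refl [IsAlgClosed k] [CharZero k] (hE : ST_EQV k) (hS : ST_GENS k) {P : Matrix n n k}
    (hP : P * P = P) (hPt : Pᵀ = P) {x : Matrix n n k} (hx : xᵀ * x = 1) (h1 : x * P = P * x)
    (h2 : x * (1 - P) = 1 - P) :
    ∃ l : List (n → k), (∀ v ∈ l, P *ᵥ v = v ∧ v ⬝ᵥ v = -1) ∧ x = (l.map rf).prod := by
  obtain ⟨m, U, hU1, hU2⟩ := proj_factor hE hP hPt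
  have hPU : P * U = U := by rw [← hU2, Matrix.mul_assoc, hU1, Matrix.mul_one]
  have hUP : Uᵀ * (1 - P) = 0 := by
    rw [← hU2, Matrix.mul_sub, Matrix.mul_one, ← Matrix.mul_assoc, hU1, Matrix.one_mul, sub_self]
  have hPU' : (1 - P) * U = 0 := by
    rw [Matrix.sub_mul, Matrix.one_mul, hPU, sub_self]
  have hf1 : IsForm 1 (1 : Matrix (Fin m) (Fin m) k) := by
    refine ⟨Or.inl rfl, ?_, ?_⟩
    · rw [transpose_one, one_smul]
    · rw [det_one]; exact one_ne_zero
  -- the extension by the identity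
  have hmul : ∀ y y' : Matrix (Fin m) (Fin m) k, U * (y * y') * Uᵀ + (1 - P) =
      (U * y * Uᵀ + (1 - P)) * (U * y' * Uᵀ + (1 - P)) := by
    intro y y'
    have e1 : U * y * Uᵀ * (U * y' * Uᵀ) = U * (y * y') * Uᵀ := by
      calc U * y * Uᵀ * (U * y' * Uᵀ) = U * y * (Uᵀ * U) * (y' * Uᵀ) := by
            simp only [Matrix.mul_assoc]
        _ = U * (y * y') * Uᵀ := by rw [hU1, Matrix.mul_one]; simp only [Matrix.mul_assoc]
    have e2 : U * y * Uᵀ * (1 - P) = 0 := by rw [Matrix.mul_assoc, hUP, Matrix.mul_zero]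
    have e3 : (1 - P) * (U * y' * Uᵀ) = 0 := by
      rw [← Matrix.mul_assoc, ← Matrix.mul_assoc, hPU', Matrix.zero_mul, Matrix.zero_mul]
    have e4 : (1 - P) * (1 - P) = 1 - P := by
      rw [Matrix.mul_sub, Matrix.mul_one, Matrix.sub_mul, Matrix.one_mul, hP, sub_self, sub_zero]
    rw [Matrix.add_mul, Matrix.mul_add, Matrix.mul_add, e1, e2, e3, e4, add_zero, zero_add]
  have hone : U * (1 : Matrix (Fin m) (Fin m) k) * Uᵀ + (1 - P) = 1 := by
    rw [Matrix.mul_one, hU2, add_sub_cancel]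
  -- the generators
  have hgen : ∀ y ∈ Submonoid.closure {R : Matrix (Fin m) (Fin m) k | ∃ v : Fin m → k,
      v ⬝ᵥ ((1 : Matrix (Fin m) (Fin m) k) *ᵥ v) ≠ 0 ∧
      R = 1 - (2 / (v ⬝ᵥ ((1 : Matrix (Fin m) (Fin m) k) *ᵥ v))) •
        vecMulVec v ((1 : Matrix (Fin m) (Fin m) k) *ᵥ v)},
      ∃ l : List (n → k), (∀ v ∈ l, P *ᵥ v = v ∧ v ⬝ᵥ v = -1) ∧
        U * y * Uᵀ + (1 - P) = (l.map rf).prod := by
    intro y hy
    induction hy using Submonoid.closure_induction with
    | mem y hy =>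
      obtain ⟨v, hv, rfl⟩ := hy
      rw [Matrix.one_mulVec] at hv ⊢
      obtain ⟨s, hs⟩ := IsAlgClosed.exists_pow_nat_eq (-(v ⬝ᵥ v)⁻¹) (n := 2) (by norm_num)
      have hUv : (U *ᵥ v) ⬝ᵥ (U *ᵥ v) = v ⬝ᵥ v := by
        rw [Matrix.dotProduct_mulVec, ← Matrix.mulVec_transpose, Matrix.mulVec_mulVec, hU1,
          Matrix.one_mulVec]
      refine ⟨[s • (U *ᵥ v)], ?_, ?_⟩
      · intro w hw
        rw [List.mem_singleton] at hw
        subst hw
        refine ⟨?_, ?_⟩
        · rw [Matrix.mulVec_smul, Matrix.mulVec_mulVec, hPU]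
        · rw [smul_dotProduct, dotProduct_smul, hUv, smul_eq_mul, smul_eq_mul, ← mul_assoc,
            ← pow_two, hs, neg_mul, inv_mul_cancel₀ hv]
      · rw [List.map_singleton, List.prod_singleton]
        unfold rf
        have e1 : U * vecMulVec v v * Uᵀ = vecMulVec (U *ᵥ v) (U *ᵥ v) := by
          rw [Matrix.mul_vecMulVec, Matrix.vecMulVec_mul, Matrix.vecMul_transpose]
        have e2 : vecMulVec (s • (U *ᵥ v)) (s • (U *ᵥ v)) =
            (s ^ 2) • vecMulVec (U *ᵥ v) (U *ᵥ v) := by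
          rw [smul_vecMulVec, vecMulVec_smul, smul_smul, pow_two]
        rw [e2, hs, smul_smul, Matrix.mul_sub, Matrix.sub_mul, Matrix.mul_one, hU2,
          Matrix.mul_smul, Matrix.smul_mul, e1]
        have e3 : (2 : k) * -(v ⬝ᵥ v)⁻¹ = -(2 / (v ⬝ᵥ v)) := by
          rw [mul_neg, div_eq_mul_inv]
        rw [e3, neg_smul]
        abel
    | one => exact ⟨[], by simp, by rw [hone]; simp⟩
    | mul y y' _ _ ih ih' =>
      obtain ⟨l, hl1, hl2⟩ := ih
      obtain ⟨l', hl1', hl2'⟩ := ih'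
      refine ⟨l ++ l', ?_, ?_⟩
      · intro v hv
        rcases List.mem_append.mp hv with h | h
        · exact hl1 v h
        · exact hl1' v h
      · rw [hmul, hl2, hl2', List.map_append, List.prod_append]
  have hy : (Uᵀ * x * U)ᵀ * (1 : Matrix (Fin m) (Fin m) k) * (Uᵀ * x * U) = 1 := by
    calc (Uᵀ * x * U)ᵀ * (1 : Matrix (Fin m) (Fin m) k) * (Uᵀ * x * U)
        = Uᵀ * xᵀ * (U * Uᵀ) * (x * U) := by
          rw [transpose_mul, transpose_mul, transpose_transpose, Matrix.mul_one]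
          simp only [Matrix.mul_assoc]
      _ = Uᵀ * (xᵀ * x) * (P * U) := by
          rw [hU2]
          calc Uᵀ * xᵀ * P * (x * U) = Uᵀ * xᵀ * (P * x) * U := by simp only [Matrix.mul_assoc]
            _ = Uᵀ * (xᵀ * x) * (P * U) := by rw [← h1]; simp only [Matrix.mul_assoc]
      _ = 1 := by rw [hx, hPU, Matrix.mul_one, hU1]
  obtain ⟨l, hl1, hl2⟩ := hgen _ (hS (Fin m) 1 hf1 _ hy)
  refine ⟨l, hl1, ?_⟩
  rw [← hl2]
  calc x = x * P + x * (1 - P) := by rw [← Matrix.mul_add, add_sub_cancel, Matrix.mul_one]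
    _ = P * x * P + (1 - P) := by rw [h2, ← h1, Matrix.mul_assoc, hP]
    _ = U * (Uᵀ * x * U) * Uᵀ + (1 - P) := by rw [← hU2]; simp only [Matrix.mul_assoc]

/-- the determinant of a reflection -/
lemma det_rf {v : n → k} (hv : v ⬝ᵥ v = -1) : (rf v).det = -1 := by
  unfold rf
  have h1 : (1 : Matrix n n k) + (2 : k) • vecMulVec v v =
      1 + replicateCol Unit ((2 : k) • v) * replicateRow Unit v := by
    rw [← vecMulVec_eq, smul_vecMulVec]
  rw [h1, det_one_add_replicateCol_mul_replicateRow, dotProduct_smul, hv, smul_eq_mul]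
  norm_num

lemma det_rf_prod {l : List (n → k)} (hl : ∀ v ∈ l, v ⬝ᵥ v = -1) :
    (l.map rf).prod.det = (-1) ^ l.length := by
  induction l with
  | nil => simp
  | cons v l ih =>
    rw [List.map_cons, List.prod_cons, det_mul, det_rf (hl v List.mem_cons_self),
      ih fun w hw => hl w (List.mem_cons_of_mem _ hw), List.length_cons, pow_succ, mul_comm]

end

end Pool.Agent.Helper96.SPN
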