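import Pool.Agent.Helper97.SPN.Stmts2

set_option autoImplicit false

/-!
# Row LFD: descent for products of coverings
-/

namespace Pool.Agent.Helper96.SPN

open Matrix Pool.Agent.Helper14.RG Pool.Agent.Helper97.SPN

section

variable {k : Type*} [Field k] {G S : Type*} [Group G] [Group S] {B : Subalgebra k (G → k)}
  {A : Subalgebra k (S → k)} {φ : S →* G}

/-- the sum over the kernel of a covering descends -/
lemma cov_sum (h : IsCov B A φ) [Fintype φ.ker] {a : S → k} (ha : a ∈ A) :
    ∃ F ∈ B, ∀ x, F (φ x) = ∑ z : φ.ker, a (x * z) := by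
  classical
  choose r hr using h.surj
  have hN : (fun x => ∑ z : φ.ker, a (x * z)) ∈ A := by
    have e : (fun x => ∑ z : φ.ker, a (x * z)) = ∑ z : φ.ker, fun x => a (x * z) := by
      funext x
      rw [Finset.sum_apply]
    rw [e]
    exact sum_mem fun z _ => h.rst _ _ ha
  have hinv : ∀ x, ∀ w ∈ φ.ker, ∑ z : φ.ker, a (x * w * z) = ∑ z : φ.ker, a (x * z) := by
    intro x w hw
    refine Fintype.sum_equiv (Equiv.mulLeft (⟨w, hw⟩ : φ.ker)) _ _ fun z => ?_
    show a (x * w * z) = a (x * ((⟨w, hw⟩ : φ.ker) * z : φ.ker))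
    rw [Subgroup.coe_mul, mul_assoc]
  have hF : ∀ x, ∑ z : φ.ker, a (r (φ x) * z) = ∑ z : φ.ker, a (x * z) := by
    intro x
    have h2 : x⁻¹ * r (φ x) ∈ φ.ker := by
      rw [MonoidHom.mem_ker, map_mul, map_inv, hr, inv_mul_cancel]
    have h3 := hinv x _ h2
    rw [mul_inv_cancel_left] at h3
    exact h3
  refine ⟨fun g => ∑ z : φ.ker, a (r g * z), h.desc _ ?_, hF⟩
  have e : (fun s => ∑ z : φ.ker, a (r (φ s) * z)) = fun x => ∑ z : φ.ker, a (x * z) := funext hF
  rw [e]
  exact hN

end

section

variable {k : Type*} [Field k] {ι : Type*} [Fintype ι] [DecidableEq ι] {S : ι → Type*}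

/-- functions in the product algebra are sums of products -/
lemma prodAlg_span (A : ∀ i, Subalgebra k (S i → k)) {b : (∀ i, S i) → k} (hb : b ∈ prodAlg A) :
    b ∈ Submodule.span k {f : (∀ i, S i) → k | ∃ a : ∀ i, S i → k, (∀ i, a i ∈ A i) ∧
      f = fun s => ∏ i, a i (s i)} := by
  have hmul : ∀ x ∈ Submodule.span k {f : (∀ i, S i) → k | ∃ a : ∀ i, S i → k, (∀ i, a i ∈ A i) ∧
      f = fun s => ∏ i, a i (s i)}, ∀ y ∈ Submodule.span k {f : (∀ i, S i) → k |
      ∃ a : ∀ i, S i → k, (∀ i, a i ∈ A i) ∧ f = fun s => ∏ i, a i (s i)},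
      x * y ∈ Submodule.span k {f : (∀ i, S i) → k | ∃ a : ∀ i, S i → k, (∀ i, a i ∈ A i) ∧
      f = fun s => ∏ i, a i (s i)} := by
    intro x hx y hy
    induction hx using Submodule.span_induction with
    | mem x hx =>
      obtain ⟨a, ha, rfl⟩ := hx
      induction hy using Submodule.span_induction with
      | mem y hy =>
        obtain ⟨c, hc, rfl⟩ := hy
        refine Submodule.subset_span ⟨fun i => a i * c i, fun i => mul_mem (ha i) (hc i), ?_⟩
        funext s
        rw [Pi.mul_apply]
        simp only [Pi.mul_apply]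
        rw [Finset.prod_mul_distrib]
      | zero => rw [mul_zero]; exact Submodule.zero_mem _
      | add u v _ _ hu hv => rw [mul_add]; exact Submodule.add_mem _ hu hv
      | smul c u _ hu => rw [mul_smul_comm]; exact Submodule.smul_mem _ _ hu
    | zero => rw [zero_mul]; exact Submodule.zero_mem _
    | add u v _ _ hu hv => rw [add_mul]; exact Submodule.add_mem _ hu hv
    | smul c u _ hu => rw [smul_mul_assoc]; exact Submodule.smul_mem _ _ hu
  have hone : (1 : (∀ i, S i) → k) ∈ Submodule.span k {f : (∀ i, S i) → k |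
      ∃ a : ∀ i, S i → k, (∀ i, a i ∈ A i) ∧ f = fun s => ∏ i, a i (s i)} := by
    refine Submodule.subset_span ⟨fun _ => 1, fun i => one_mem _, ?_⟩
    funext s
    simp
  unfold prodAlg at hb
  induction hb using Algebra.adjoin_induction with
  | mem x hx =>
    obtain ⟨c, a, ha, rfl⟩ := hx
    refine Submodule.subset_span ⟨Function.update (fun _ => 1) c a, fun i => ?_, ?_⟩
    · by_cases hi : i = c
      · subst hi
        rw [Function.update_self]
        exact ha
      · rw [Function.update_of_ne hi]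
        exact one_mem _
    · funext s
      rw [Finset.prod_eq_single c]
      · rw [Function.update_self]
      · intro i _ hi
        rw [Function.update_of_ne hi]
        rfl
      · intro hi
        exact absurd (Finset.mem_univ _) hi
  | algebraMap r =>
    rw [Algebra.algebraMap_eq_smul_one]
    exact Submodule.smul_mem _ _ hone
  | add x y _ _ hx hy => exact Submodule.add_mem _ hx hy
  | mul x y _ _ hx hy => exact hmul x hx y hy

end

end Pool.Agent.Helper96.SPN

namespace Pool.Agent.Helper97.SPN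

open Pool.Agent.Helper14.RG Pool.Agent.Helper96.SPN

universe u v w

theorem st_LFD : ST_LFD.{u, v, w} := by
  intro k _ _ ι _ _ G S _ _ B A φ h f hf
  classical
  have hfin : ∀ i, Finite (φ i).ker := fun i => (h i).fin
  have hft : ∀ i, Fintype (φ i).ker := fun i => Fintype.ofFinite _
  have key : ∀ b ∈ Submodule.span k {f : (∀ i, S i) → k | ∃ a : ∀ i, S i → k,
      (∀ i, a i ∈ A i) ∧ f = fun s => ∏ i, a i (s i)},
      ∃ F ∈ prodAlg B, ∀ s : ∀ i, S i, F (fun i => φ i (s i)) =
        ∑ z : ∀ i, (φ i).ker, b (fun i => s i * z i) := by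
    intro b hb
    induction hb using Submodule.span_induction with
    | mem x hx =>
      obtain ⟨a, ha, rfl⟩ := hx
      choose F hF1 hF2 using fun i => cov_sum (h i) (ha i)
      refine ⟨fun g => ∏ i, F i (g i), ?_, fun s => ?_⟩
      · have e : (fun g : ∀ i, G i => ∏ i, F i (g i)) = ∏ i, fun g : ∀ i, G i => F i (g i) := by
          funext g
          rw [Finset.prod_apply]
        rw [e]
        exact prod_mem fun i _ => mem_prodAlg B i (hF1 i)
      · show ∏ i, F i (φ i (s i)) = _
        rw [Finset.prod_congr rfl fun i _ => hF2 i (s i), Finset.prod_univ_sum,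
          Fintype.piFinset_univ]
    | zero => exact ⟨0, zero_mem _, fun s => by simp⟩
    | add x y _ _ hx hy =>
      obtain ⟨F, hF, hF'⟩ := hx
      obtain ⟨F₂, hF₂, hF₂'⟩ := hy
      refine ⟨F + F₂, add_mem hF hF₂, fun s => ?_⟩
      rw [Pi.add_apply, hF', hF₂', ← Finset.sum_add_distrib]
      rfl
    | smul c x _ hx =>
      obtain ⟨F, hF, hF'⟩ := hx
      refine ⟨c • F, Subalgebra.smul_mem _ hF c, fun s => ?_⟩
      rw [Pi.smul_apply, hF', Finset.smul_sum]
      rfl
  obtain ⟨F, hF, hF'⟩ := key _ (prodAlg_span A hf)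
  have hcard : (Fintype.card (∀ i, (φ i).ker) : k) ≠ 0 := by
    rw [Nat.cast_ne_zero]
    exact Fintype.card_ne_zero
  have hfF : f = (Fintype.card (∀ i, (φ i).ker) : k)⁻¹ • F := by
    funext g
    choose s hs using fun i => (h i).surj (g i)
    have hg : g = fun i => φ i (s i) := funext fun i => (hs i).symm
    rw [hg, Pi.smul_apply, hF', smul_eq_mul]
    have h1 : ∀ z : ∀ i, (φ i).ker, f (fun i => φ i (s i * z i)) = f (fun i => φ i (s i)) := by
      intro z
      congr 1
      funext i
      rw [map_mul, MonoidHom.mem_ker.mp (z i).2, mul_one]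
    rw [Finset.sum_congr rfl fun z _ => h1 z, Finset.sum_const, Finset.card_univ, nsmul_eq_mul,
      inv_mul_cancel_left₀ hcard]
  rw [hfF]
  exact Subalgebra.smul_mem _ hF _

end Pool.Agent.Helper97.SPN
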