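import Pool.Agent.Helper67.SPN.Rho

set_option autoImplicit false

/-!
# Row NRM: the even regular functions of `Spin_n` are the regular functions of `SO_n`
-/

namespace Pool.Agent.Helper96.SPN

open Matrix CliffordAlgebra Pool.Agent.Helper14.RG Pool.Agent.Helper97.CG
open Pool.Agent.Helper67.SPN

section Avg

variable {k : Type*} [Field k] [CharZero k] {n : Type} [Fintype n] [DecidableEq n]

/-- the vectors of the standard basis -/
noncomputable def ev (k : Type*) [Field k] {n : Type} [Fintype n] [DecidableEq n] (i : n) :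
    Cln n k := ι (Qn n k) (Pi.single i 1)

omit [CharZero k] in
lemma ev_sq (i : n) : ev k i * ev k i = 1 := by
  unfold ev
  rw [ι_sq, single_dotProduct, Pi.single_eq_same, one_mul, map_one]

omit [CharZero k] in
lemma ev_anti {i j : n} (h : i ≠ j) : ev k i * ev k j = -(ev k j * ev k i) := by
  have h1 := ι_mul_ι (k := k) (Pi.single i 1 : n → k) (Pi.single j 1)
  rw [single_dotProduct, Pi.single_eq_of_ne h, mul_zero, mul_zero, map_zero] at h1
  exact eq_neg_of_add_eq_zero_left h1

omit [CharZero k] in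
lemma ι_eq_sum (v : n → k) : ι (Qn n k) v = ∑ i, v i • ev k i := by
  have h1 : v = ∑ i, v i • (Pi.single i 1 : n → k) := by
    ext i
    rw [Finset.sum_apply, Finset.sum_eq_single i]
    · simp
    · intro j _ hj
      simp [Pi.single_eq_of_ne hj.symm]
    · intro hi
      exact absurd (Finset.mem_univ _) hi
  conv_lhs => rw [h1, map_sum]
  exact Finset.sum_congr rfl fun i _ => by rw [map_smul]; rfl

/-- conjugation by a basis vector -/
noncomputable def cj (i : n) : Cln n k →ₗ[k] Cln n k :=
  (LinearMap.mulRight k (ev k i)).comp (LinearMap.mulLeft k (ev k i))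

omit [CharZero k] in
lemma cj_apply (i : n) (y : Cln n k) : cj i y = ev k i * y * ev k i := rfl

omit [CharZero k] in
lemma cj_mul (i : n) (x y : Cln n k) : cj i (x * y) = cj i x * cj i y := by
  rw [cj_apply, cj_apply, cj_apply]
  calc ev k i * (x * y) * ev k i = ev k i * x * 1 * y * ev k i := by
        rw [mul_one]; simp only [mul_assoc]
    _ = ev k i * x * ev k i * (ev k i * y * ev k i) := by
        rw [← ev_sq i]; simp only [mul_assoc]

omit [CharZero k] in
lemma cj_cj (i : n) (y : Cln n k) : cj i (cj i y) = y := by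
  rw [cj_apply, cj_apply]
  calc ev k i * (ev k i * y * ev k i) * ev k i = (ev k i * ev k i) * y * (ev k i * ev k i) := by
        simp only [mul_assoc]
    _ = y := by rw [ev_sq, one_mul, mul_one]

omit [CharZero k] in
lemma cj_comm (i j : n) (y : Cln n k) : cj i (cj j y) = cj j (cj i y) := by
  by_cases h : i = j
  · rw [h]
  · rw [cj_apply, cj_apply, cj_apply, cj_apply]
    calc ev k i * (ev k j * y * ev k j) * ev k i
        = (ev k i * ev k j) * y * (ev k j * ev k i) := by simp only [mul_assoc]
      _ = (ev k j * ev k i) * y * (ev k i * ev k j) := by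
        rw [ev_anti h, neg_mul, neg_mul, mul_neg]
      _ = ev k j * (ev k i * y * ev k i) * ev k j := by simp only [mul_assoc]

omit [CharZero k] in
lemma ev_odd (i : n) : ev k i ∈ evenOdd (Qn n k) 1 := ι_mem_evenOdd_one _ _

omit [CharZero k] in
lemma cj_even (i : n) {y : Cln n k} (hy : y ∈ evenOdd (Qn n k) 0) :
    cj i y ∈ evenOdd (Qn n k) 0 := by
  have h1 : ev k i * y * ev k i ∈ evenOdd (Qn n k) (1 + 0 + 1) :=
    SetLike.GradedMul.mul_mem (SetLike.GradedMul.mul_mem (ev_odd i) hy) (ev_odd i)
  exact h1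

omit [CharZero k] in
lemma cj_alg (i : n) (a : k) : cj i (algebraMap k (Cln n k) a) = algebraMap k _ a := by
  rw [cj_apply, ← Algebra.commutes, mul_assoc, ev_sq, mul_one]

/-- average over the conjugations of a list -/
noncomputable def av : List n → Cln n k →ₗ[k] Cln n k
  | [] => LinearMap.id
  | i :: l => (2⁻¹ : k) • (av l + (cj i).comp (av l))

omit [CharZero k] in
lemma av_cons (i : n) (l : List n) (y : Cln n k) :
    av (i :: l) y = (2⁻¹ : k) • (av l y + cj i (av l y)) := rfl

omit [CharZero k] in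
lemma cj_av_comm (l : List n) (i : n) (y : Cln n k) : cj i (av l y) = av l (cj i y) := by
  induction l with
  | nil => rfl
  | cons j l ih => rw [av_cons, av_cons, map_smul, map_add, ← ih, cj_comm i j]

omit [CharZero k] in
lemma cj_av (l : List n) (i : n) (hi : i ∈ l) (y : Cln n k) : cj i (av l y) = av l y := by
  induction l with
  | nil => exact absurd hi List.not_mem_nil
  | cons j l ih =>
    rw [av_cons, map_smul, map_add]
    rcases List.mem_cons.mp hi with h | h
    · rw [h, cj_cj, add_comm]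
    · rw [ih h, cj_comm i j, ih h]

omit [CharZero k] in
lemma av_even (l : List n) {y : Cln n k} (hy : y ∈ evenOdd (Qn n k) 0) :
    av l y ∈ evenOdd (Qn n k) 0 := by
  induction l with
  | nil => exact hy
  | cons j l ih => exact Submodule.smul_mem _ _ (Submodule.add_mem _ ih (cj_even j ih))

lemma av_alg (l : List n) (a : k) : av l (algebraMap k (Cln n k) a) = algebraMap k _ a := by
  induction l with
  | nil => rfl
  | cons j l ih =>
    rw [av_cons, ih, cj_alg, ← two_smul k, smul_smul, inv_mul_cancel₀ two_ne_zero, one_smul]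

/-- the average over all the conjugations -/
noncomputable def av1 : Cln n k →ₗ[k] Cln n k := av Finset.univ.toList

omit [CharZero k] in
lemma cj_fix {i : n} {y : Cln n k} (h : cj i y = y) : ev k i * y = y * ev k i := by
  calc ev k i * y = (ev k i * y) * (ev k i * ev k i) := by rw [ev_sq, mul_one]
    _ = cj i y * ev k i := by rw [cj_apply]; simp only [mul_assoc]
    _ = y * ev k i := by rw [h]

lemma av1_scalar {y : Cln n k} (hy : y ∈ evenOdd (Qn n k) 0) :
    ∃ c : k, av1 y = algebraMap k _ c := by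
  refine even_central _ (av_even _ hy) fun v => ?_
  rw [ι_eq_sum, Finset.sum_mul, Finset.mul_sum]
  refine Finset.sum_congr rfl fun i _ => ?_
  have h1 : cj i (av1 y) = av1 y := cj_av _ i (by simp) y
  rw [smul_mul_assoc, mul_smul_comm, cj_fix h1]

omit [DecidableEq n] in
lemma exists_eps : ∃ f : Cln n k →ₗ[k] k, ∀ a, f (algebraMap k _ a) = a := by
  have h1 : LinearMap.ker (Algebra.linearMap k (Cln n k)) = ⊥ :=
    LinearMap.ker_eq_bot.mpr fun a b h => algebraMap_inj (Qn n k) h
  obtain ⟨g, hg⟩ := LinearMap.exists_leftInverse_of_injective _ h1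
  exact ⟨g, fun a => congrArg (fun z : k →ₗ[k] k => z a) hg⟩

/-- the normalised trace -/
noncomputable def tau (n : Type) [Fintype n] [DecidableEq n] (k : Type*) [Field k] [CharZero k] :
    Cln n k →ₗ[k] k := (Classical.choose (exists_eps (n := n) (k := k))).comp av1

lemma tau_spec {y : Cln n k} (hy : y ∈ evenOdd (Qn n k) 0) :
    av1 y = algebraMap k _ (tau n k y) := by
  obtain ⟨c, hc⟩ := av1_scalar hy
  have h1 : tau n k y = c := by
    show Classical.choose (exists_eps (n := n) (k := k)) (av1 y) = c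
    rw [hc]
    exact Classical.choose_spec (exists_eps (n := n) (k := k)) c
  rw [h1, hc]

lemma tau_alg (a : k) : tau n k (algebraMap k _ a) = a := by
  show Classical.choose (exists_eps (n := n) (k := k)) (av1 (algebraMap k _ a)) = a
  have h1 : av1 (algebraMap k (Cln n k) a) = algebraMap k _ a := av_alg _ a
  rw [h1]
  exact Classical.choose_spec (exists_eps (n := n) (k := k)) a

lemma tau_cj (i : n) (y : Cln n k) : tau n k (cj i y) = tau n k y := by
  show Classical.choose (exists_eps (n := n) (k := k)) (av1 (cj i y)) =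
    Classical.choose (exists_eps (n := n) (k := k)) (av1 y)
  have h1 : av1 (cj i y) = av1 y := by
    unfold av1
    rw [← cj_av_comm, cj_av _ i (by simp)]
  rw [h1]

end Avg

section Nondeg

variable {k : Type*} [Field k] [CharZero k] {n : Type} [Fintype n] [DecidableEq n]

/-- the radical of the trace form on the even part -/
def Kr (n : Type) [Fintype n] [DecidableEq n] (k : Type*) [Field k] [CharZero k] :
    Submodule k (Cln n k) where
  carrier := {c | c ∈ evenOdd (Qn n k) 0 ∧ ∀ y ∈ evenOdd (Qn n k) 0, tau n k (c * y) = 0}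
  add_mem' := by
    rintro a b ⟨ha, ha'⟩ ⟨hb, hb'⟩
    refine ⟨Submodule.add_mem _ ha hb, fun y hy => ?_⟩
    rw [add_mul, map_add, ha' y hy, hb' y hy, add_zero]
  zero_mem' := ⟨Submodule.zero_mem _, fun y _ => by rw [zero_mul, map_zero]⟩
  smul_mem' := by
    rintro a b ⟨hb, hb'⟩
    refine ⟨Submodule.smul_mem _ _ hb, fun y hy => ?_⟩
    rw [smul_mul_assoc, map_smul, hb' y hy, smul_zero]

lemma Kr_cj (i : n) {c : Cln n k} (hc : c ∈ Kr n k) : cj i c ∈ Kr n k := by
  refine ⟨cj_even i hc.1, fun y hy => ?_⟩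
  have h1 : cj i c * y = cj i (c * cj i y) := by rw [cj_mul, cj_cj]
  rw [h1, tau_cj]
  exact hc.2 _ (cj_even i hy)

lemma exists_eigen (l : List n) {c : Cln n k} (hc : c ∈ Kr n k) (h0 : c ≠ 0) :
    ∃ c' ∈ Kr n k, c' ≠ 0 ∧ ∀ i ∈ l, cj i c' = c' ∨ cj i c' = -c' := by
  induction l with
  | nil => exact ⟨c, hc, h0, fun i hi => absurd hi List.not_mem_nil⟩
  | cons j l ih =>
    obtain ⟨c', hc', h0', hl⟩ := ih
    have hcj := Kr_cj j hc'
    by_cases h1 : c' + cj j c' = 0
    · -- anticommutes
      refine ⟨c', hc', h0', fun i hi => ?_⟩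
      rcases List.mem_cons.mp hi with h | h
      · right
        rw [h]
        exact eq_neg_of_add_eq_zero_right h1
      · exact hl i h
    · refine ⟨c' + cj j c', Submodule.add_mem _ hc' hcj, h1, fun i hi => ?_⟩
      rcases List.mem_cons.mp hi with h | h
      · left
        rw [h, map_add, cj_cj, add_comm]
      · rcases hl i h with h2 | h2
        · left
          rw [map_add, cj_comm i j, h2]
        · right
          rw [map_add, cj_comm i j, h2, map_neg, neg_add]

/-- product of the basis vectors of a list -/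
noncomputable def pr (k : Type*) [Field k] {n : Type} [Fintype n] [DecidableEq n] (l : List n) :
    Cln n k := (l.map (ev k)).prod

omit [CharZero k] in
lemma pr_cons (i : n) (l : List n) : pr k (i :: l) = ev k i * pr k l := by
  unfold pr
  rw [List.map_cons, List.prod_cons]

omit [CharZero k] in
lemma cj_ev_same (i : n) : cj i (ev k i) = ev k i := by
  rw [cj_apply, ev_sq, one_mul]

omit [CharZero k] in
lemma cj_ev_ne {i j : n} (h : i ≠ j) : cj i (ev k j) = -ev k j := by
  rw [cj_apply, ev_anti h, neg_mul, mul_assoc, ev_sq, mul_one]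

omit [CharZero k] in
lemma cj_pr_not {i : n} {l : List n} (h : i ∉ l) : cj i (pr k l) = (-1 : k) ^ l.length • pr k l := by
  induction l with
  | nil =>
    have h1 : pr k ([] : List n) = algebraMap k _ 1 := by
      rw [map_one]
      rfl
    rw [h1, cj_alg, List.length_nil, pow_zero, one_smul]
  | cons j l ih =>
    have hij : i ≠ j := by
      rintro rfl
      exact h List.mem_cons_self
    rw [pr_cons, cj_mul, ih fun h1 => h (List.mem_cons_of_mem _ h1), cj_ev_ne hij,
      List.length_cons, pow_succ, mul_neg, mul_one, neg_smul, mul_smul_comm, neg_mul, smul_neg]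

omit [CharZero k] in
lemma cj_pr_mem {i : n} {l : List n} (hl : l.Nodup) (h : i ∈ l) :
    cj i (pr k l) = -((-1 : k) ^ l.length • pr k l) := by
  induction l with
  | nil => exact absurd h List.not_mem_nil
  | cons j l ih =>
    rw [List.nodup_cons] at hl
    rw [pr_cons, cj_mul]
    rcases List.mem_cons.mp h with h1 | h1
    · subst h1
      rw [cj_ev_same, cj_pr_not hl.1, List.length_cons, pow_succ, mul_neg, mul_one, neg_smul,
        mul_smul_comm, neg_neg]
    · have hij : i ≠ j := fun h2 => hl.1 (h2 ▸ h1)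
      rw [cj_ev_ne hij, ih hl.2 h1, List.length_cons, pow_succ, neg_mul_neg, mul_smul_comm,
        mul_neg, mul_one, neg_smul, neg_neg]

omit [CharZero k] in
lemma involute_pr (l : List n) : involute (pr k l) = (-1 : k) ^ l.length • pr k l := by
  induction l with
  | nil =>
    have h1 : pr k ([] : List n) = 1 := rfl
    rw [h1, map_one, List.length_nil, pow_zero, one_smul]
  | cons j l ih =>
    have h1 : involute (ev k j) = -ev k j := involute_ι _
    rw [pr_cons, map_mul, ih, h1, List.length_cons, pow_succ, mul_neg, mul_one, neg_smul,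
      mul_smul_comm, neg_mul, smul_neg]

omit [CharZero k] in
lemma pr_even {l : List n} (h : Even l.length) : pr k l ∈ evenOdd (Qn n k) 0 := by
  have h1 : ∀ l : List n, pr k l ∈ evenOdd (Qn n k) (l.length : ZMod 2) := by
    intro l
    induction l with
    | nil =>
      rw [List.length_nil, Nat.cast_zero]
      exact SetLike.GradedOne.one_mem
    | cons j l ih =>
      rw [pr_cons, List.length_cons, Nat.cast_add, Nat.cast_one, add_comm]
      exact SetLike.GradedMul.mul_mem (ev_odd j) ih
  have h2 := h1 l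
  have h3 : (l.length : ZMod 2) = 0 := (ZMod.natCast_eq_zero_iff_even).mpr h
  rwa [h3] at h2

omit [CharZero k] in
lemma pr_inv (l : List n) : ∃ z : Cln n k, pr k l * z = 1 := by
  induction l with
  | nil => exact ⟨1, mul_one _⟩
  | cons j l ih =>
    obtain ⟨z, hz⟩ := ih
    refine ⟨z * ev k j, ?_⟩
    rw [pr_cons]
    calc ev k j * pr k l * (z * ev k j) = ev k j * (pr k l * z) * ev k j := by
          simp only [mul_assoc]
      _ = 1 := by rw [hz, mul_one, ev_sq]

lemma Kr_bot {c : Cln n k} (hc : c ∈ Kr n k) : c = 0 := by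
  by_contra h0
  obtain ⟨d, hd, hd0, hdl⟩ := exists_eigen Finset.univ.toList hc h0
  have hdl' : ∀ i, cj i d = d ∨ cj i d = -d := fun i => hdl i (by simp)
  classical
  let T : Finset n := Finset.univ.filter fun i => cj i d = -d
  have hT : ∀ i, i ∈ T.toList ↔ cj i d = -d := by
    intro i
    rw [Finset.mem_toList, Finset.mem_filter]
    exact ⟨fun h => h.2, fun h => ⟨Finset.mem_univ _, h⟩⟩
  have hnd := T.nodup_toList
  generalize T.toList = l at hT hnd
  obtain ⟨z, hz⟩ := pr_inv (k := k) l
  have hw0 : d * pr k l ≠ 0 := by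
    intro h1
    apply hd0
    calc d = d * (pr k l * z) := by rw [hz, mul_one]
      _ = 0 := by rw [← mul_assoc, h1, zero_mul]
  have hcj : ∀ i, cj i (d * pr k l) = (-1 : k) ^ l.length • (d * pr k l) := by
    intro i
    rw [cj_mul]
    by_cases hi : i ∈ l
    · rw [(hT i).mp hi, cj_pr_mem hnd hi, neg_mul_neg, mul_smul_comm]
    · rw [(hdl' i).resolve_right fun h => hi ((hT i).mpr h), cj_pr_not hi, mul_smul_comm]
  have hinv : involute (d * pr k l) = (-1 : k) ^ l.length • (d * pr k l) := by
    rw [map_mul, involute_eq_of_mem_even hd.1, involute_pr, mul_smul_comm]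
  obtain ⟨a, ha⟩ := lemmaZ (d * pr k l) (by
    intro v
    rw [ι_eq_sum, Finset.sum_mul, Finset.mul_sum]
    refine Finset.sum_congr rfl fun i _ => ?_
    rw [smul_mul_assoc, mul_smul_comm, hinv, ← hcj i, cj_apply, mul_assoc _ (ev k i) (ev k i),
      ev_sq, mul_one])
  have ha0 : a ≠ 0 := by
    intro h1
    apply hw0
    rw [ha, h1, map_zero]
  have hev : Even l.length := by
    by_contra h1
    rw [Nat.not_even_iff_odd] at h1
    rw [h1.neg_one_pow, neg_smul, one_smul, ha, AlgHom.commutes] at hinv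
    have h2 : (2 : k) • (algebraMap k (Cln n k) a) = 0 := by
      rw [two_smul]
      nth_rewrite 1 [hinv]
      exact neg_add_cancel _
    apply hw0
    rw [ha]
    exact (smul_eq_zero.mp h2).resolve_left two_ne_zero
  have h1 := hd.2 _ (pr_even hev)
  rw [ha, tau_alg] at h1
  exact ha0 h1

/-- every functional on the even part is given by the trace form -/
lemma exists_tau (f : Cln n k →ₗ[k] k) :
    ∃ c ∈ evenOdd (Qn n k) 0, ∀ y ∈ evenOdd (Qn n k) 0, f y = tau n k (c * y) := by
  let V := evenOdd (Qn n k) 0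
  let Th : V →ₗ[k] Module.Dual k V :=
    LinearMap.mk₂ k (fun c y : V => tau n k ((c : Cln n k) * (y : Cln n k)))
      (fun a b y => by rw [Submodule.coe_add, add_mul, map_add])
      (fun a b y => by rw [Submodule.coe_smul, smul_mul_assoc, map_smul])
      (fun a b y => by rw [Submodule.coe_add, mul_add, map_add])
      (fun a b y => by rw [Submodule.coe_smul, mul_smul_comm, map_smul])
  have hinj : Function.Injective Th := by
    rw [← LinearMap.ker_eq_bot, LinearMap.ker_eq_bot']
    intro c hc
    apply Subtype.ext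
    refine Kr_bot ⟨c.2, fun y hy => ?_⟩
    exact congrArg (fun z : Module.Dual k V => z ⟨y, hy⟩) hc
  have hsurj : Function.Surjective Th :=
    (LinearMap.injective_iff_surjective_of_finrank_eq_finrank
      (Subspace.dual_finrank_eq (K := k) (V := V)).symm).mp hinj
  obtain ⟨c, hc⟩ := hsurj (f.comp V.subtype)
  refine ⟨c, c.2, fun y hy => ?_⟩
  exact (congrArg (fun z : Module.Dual k V => z ⟨y, hy⟩) hc).symm

end Nondeg

section Good

variable {k : Type*} [Field k] [CharZero k] {n : Type} [Fintype n] [DecidableEq n]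

/-- the functions on `Spin_n` which come from regular functions of `SO_n` -/
noncomputable def Br (n : Type) [Fintype n] [DecidableEq n] (k : Type*) [Field k] [CharZero k] :
    Subalgebra k (SpinG n k → k) where
  carrier := {f | ∃ F ∈ mAlg (isoHom (1 : Matrix n n k)), f = fun g => F (rho n k g)}
  mul_mem' := by
    rintro _ _ ⟨F, hF, rfl⟩ ⟨F', hF', rfl⟩
    exact ⟨F * F', mul_mem hF hF', rfl⟩
  add_mem' := by
    rintro _ _ ⟨F, hF, rfl⟩ ⟨F', hF', rfl⟩
    exact ⟨F + F', add_mem hF hF', rfl⟩
  algebraMap_mem' := fun r => ⟨algebraMap k _ r, Subalgebra.algebraMap_mem _ r, rfl⟩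

/-- all the coordinates are in `Br` -/
def Good (Y : SpinG n k → Cln n k) : Prop := ∀ f : Cln n k →ₗ[k] k, (fun g => f (Y g)) ∈ Br n k

lemma Good.const (c : Cln n k) : Good (fun _ => c) := fun f =>
  Subalgebra.algebraMap_mem _ (f c)

lemma Good.add {Y Z : SpinG n k → Cln n k} (hY : Good Y) (hZ : Good Z) :
    Good (fun g => Y g + Z g) := by
  intro f
  have h1 : (fun g => f (Y g + Z g)) = (fun g => f (Y g)) + fun g => f (Z g) := by
    funext g
    rw [map_add]
    rfl
  rw [h1]
  exact add_mem (hY f) (hZ f)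

lemma Good.smul {Y : SpinG n k → Cln n k} (c : k) (hY : Good Y) :
    Good (fun g => c • Y g) := by
  intro f
  have h1 : (fun g => f (c • Y g)) = c • fun g => f (Y g) := by
    funext g
    rw [map_smul]
    rfl
  rw [h1]
  exact Subalgebra.smul_mem _ (hY f) c

lemma Good.mul {Y Z : SpinG n k → Cln n k} (hY : Good Y) (hZ : Good Z) :
    Good (fun g => Y g * Z g) := by
  intro f
  let b := Module.finBasis k (Cln n k)
  have h1 : (fun g => f (Y g * Z g)) = ∑ i, ∑ j, (fun g => b.coord i (Y g)) *
      ((fun g => b.coord j (Z g)) * algebraMap k (SpinG n k → k) (f (b i * b j))) := by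
    funext g
    simp only [Finset.sum_apply, Pi.mul_apply]
    conv_lhs => rw [← b.sum_repr (Y g), ← b.sum_repr (Z g)]
    rw [Finset.sum_mul, map_sum]
    refine Finset.sum_congr rfl fun i _ => ?_
    rw [Finset.mul_sum, map_sum]
    refine Finset.sum_congr rfl fun j _ => ?_
    rw [smul_mul_smul_comm, map_smul, smul_eq_mul, mul_assoc]
    rfl
  rw [h1]
  exact sum_mem fun i _ => sum_mem fun j _ => mul_mem (hY _)
    (mul_mem (hZ _) (Subalgebra.algebraMap_mem _ _))

lemma Good.vec (i : n) :
    Good (fun g : SpinG n k => ι (Qn n k) (isoHom 1 (rho n k g) *ᵥ Pi.single i 1)) := by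
  intro f
  have h1 : (fun g : SpinG n k => f (ι (Qn n k) (isoHom 1 (rho n k g) *ᵥ Pi.single i 1))) =
      ∑ j, (fun g : SpinG n k => isoHom 1 (rho n k g) j i) *
        algebraMap k (SpinG n k → k) (f (ev k j)) := by
    funext g
    rw [ι_eq_sum, map_sum, Finset.sum_apply]
    refine Finset.sum_congr rfl fun j _ => ?_
    rw [map_smul, smul_eq_mul, mulVec_single_one]
    rfl
  rw [h1]
  refine sum_mem fun j _ => mul_mem ?_ (Subalgebra.algebraMap_mem _ _)
  exact ⟨fun x => isoHom 1 x j i, Algebra.subset_adjoin ⟨j, i, rfl⟩, rfl⟩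

lemma good_av (l : List n) {Y : SpinG n k → Cln n k} (hY : Good Y) :
    ∃ Y' : SpinG n k → Cln n k, Good Y' ∧ ∀ g : SpinG n k,
      av l (Y g * (g : Cln n k)) = Y' g * (g : Cln n k) := by
  induction l with
  | nil => exact ⟨Y, hY, fun g => rfl⟩
  | cons i l ih =>
    obtain ⟨Z, hZ, hZ'⟩ := ih
    refine ⟨fun g => (2⁻¹ : k) • (Z g + ev k i * Z g *
      ι (Qn n k) (isoHom 1 (rho n k g) *ᵥ Pi.single i 1)),
      Good.smul _ (hZ.add (((Good.const _).mul hZ).mul (Good.vec i))), fun g => ?_⟩
    rw [av_cons, hZ', smul_mul_assoc, add_mul, rho_spec]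
    congr 2
    rw [cj_apply]
    have h1 : star (g : Cln n k) * (g : Cln n k) = 1 := (rho_cov g).inv_mul
    calc ev k i * (Z g * (g : Cln n k)) * ev k i
        = ev k i * Z g * ((g : Cln n k) * ev k i * 1) := by
          rw [mul_one]; simp only [mul_assoc]
      _ = ev k i * Z g * ((g : Cln n k) * ev k i * star (g : Cln n k)) * (g : Cln n k) := by
          rw [← h1]; simp only [mul_assoc]

lemma tau_mul_mem {c : Cln n k} (hc : c ∈ evenOdd (Qn n k) 0) (f : Cln n k →ₗ[k] k) :
    (fun g : SpinG n k => tau n k (c * (g : Cln n k)) * f (g : Cln n k)) ∈ Br n k := by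
  obtain ⟨Y, hY, hY'⟩ := good_av (k := k) (Finset.univ.toList : List n) (Good.const c)
  have h1 := hY (f.comp (reverse (Q := Qn n k)))
  have h2 : (fun g : SpinG n k => (f.comp (reverse (Q := Qn n k))) (Y g)) =
      fun g : SpinG n k => tau n k (c * (g : Cln n k)) * f (g : Cln n k) := by
    funext g
    have hg : (g : Cln n k) ∈ evenOdd (Qn n k) 0 := (rho_cov g).par
    have hcg : c * (g : Cln n k) ∈ evenOdd (Qn n k) (0 + 0) := SetLike.GradedMul.mul_mem hc hg
    rw [add_zero] at hcg
    have h3 : algebraMap k (Cln n k) (tau n k (c * (g : Cln n k))) = Y g * (g : Cln n k) := by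
      rw [← tau_spec hcg]
      exact hY' g
    have h4 : Y g = tau n k (c * (g : Cln n k)) • star (g : Cln n k) := by
      calc Y g = Y g * ((g : Cln n k) * star (g : Cln n k)) := by
            rw [(rho_cov g).mul_inv, mul_one]
        _ = tau n k (c * (g : Cln n k)) • star (g : Cln n k) := by
          rw [← mul_assoc, ← h3, Algebra.smul_def]
    rw [h4, map_smul, smul_eq_mul]
    congr 1
    show f (reverse (star (g : Cln n k))) = f (g : Cln n k)
    rw [star_def', reverse_involute_commute.eq, reverse_reverse, involute_eq_of_mem_even hg]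
  rw [← h2]
  exact h1

lemma mul_mem_Br (f f' : Cln n k →ₗ[k] k) :
    (fun g : SpinG n k => f (g : Cln n k) * f' (g : Cln n k)) ∈ Br n k := by
  obtain ⟨c, hc, hc'⟩ := exists_tau f
  have h1 : (fun g : SpinG n k => f (g : Cln n k) * f' (g : Cln n k)) =
      fun g : SpinG n k => tau n k (c * (g : Cln n k)) * f' (g : Cln n k) := by
    funext g
    rw [hc' _ (rho_cov g).par]
  rw [h1]
  exact tau_mul_mem hc f'

/-- the odd part -/
def Mo (n : Type) [Fintype n] [DecidableEq n] (k : Type*) [Field k] [CharZero k] :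
    Submodule k (SpinG n k → k) :=
  Submodule.span k {f | ∃ b ∈ Br n k, ∃ φ : Cln n k →ₗ[k] k,
    f = b * fun g : SpinG n k => φ (g : Cln n k)}

lemma Br_mul_Mo {b m : SpinG n k → k} (hb : b ∈ Br n k) (hm : m ∈ Mo n k) : b * m ∈ Mo n k := by
  unfold Mo at hm
  induction hm using Submodule.span_induction with
  | mem x hx =>
    obtain ⟨c, hc, φ, rfl⟩ := hx
    exact Submodule.subset_span ⟨b * c, mul_mem hb hc, φ, (mul_assoc _ _ _).symm⟩
  | zero => rw [mul_zero]; exact Submodule.zero_mem _
  | add x y _ _ hx hy => rw [mul_add]; exact Submodule.add_mem _ hx hy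
  | smul a x _ hx => rw [mul_smul_comm]; exact Submodule.smul_mem _ _ hx

lemma fn_mul_Mo (φ : Cln n k →ₗ[k] k) {m : SpinG n k → k} (hm : m ∈ Mo n k) :
    (fun g : SpinG n k => φ (g : Cln n k)) * m ∈ Br n k := by
  unfold Mo at hm
  induction hm using Submodule.span_induction with
  | mem x hx =>
    obtain ⟨c, hc, ψ, rfl⟩ := hx
    rw [mul_left_comm]
    exact mul_mem hc (mul_mem_Br φ ψ)
  | zero => rw [mul_zero]; exact zero_mem _
  | add x y _ _ hx hy => rw [mul_add]; exact add_mem hx hy
  | smul a x _ hx => rw [mul_smul_comm]; exact Subalgebra.smul_mem _ hx a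

lemma Mo_mul_Mo {m m' : SpinG n k → k} (hm : m ∈ Mo n k) (hm' : m' ∈ Mo n k) :
    m * m' ∈ Br n k := by
  unfold Mo at hm
  induction hm using Submodule.span_induction with
  | mem x hx =>
    obtain ⟨c, hc, ψ, rfl⟩ := hx
    rw [mul_assoc]
    exact mul_mem hc (fn_mul_Mo ψ hm')
  | zero => rw [zero_mul]; exact zero_mem _
  | add x y _ _ hx hy => rw [add_mul]; exact add_mem hx hy
  | smul a x _ hx => rw [smul_mul_assoc]; exact Subalgebra.smul_mem _ hx a

lemma fn_mem_Mo (φ : Cln n k →ₗ[k] k) :
    (fun g : SpinG n k => φ (g : Cln n k)) ∈ Mo n k :=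
  Submodule.subset_span ⟨1, one_mem _, φ, (one_mul _).symm⟩

lemma sAlg_split {f : SpinG n k → k} (hf : f ∈ sAlg n k) :
    ∃ f0 ∈ Br n k, ∃ f1 ∈ Mo n k, f = f0 + f1 := by
  unfold sAlg at hf
  induction hf using Algebra.adjoin_induction with
  | mem x hx =>
    obtain ⟨φ, rfl⟩ := hx
    exact ⟨0, zero_mem _, _, fn_mem_Mo φ, (zero_add _).symm⟩
  | algebraMap r =>
    exact ⟨_, Subalgebra.algebraMap_mem _ r, 0, Submodule.zero_mem _, (add_zero _).symm⟩
  | add x y _ _ hx hy =>
    obtain ⟨x0, hx0, x1, hx1, rfl⟩ := hx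
    obtain ⟨y0, hy0, y1, hy1, rfl⟩ := hy
    exact ⟨x0 + y0, add_mem hx0 hy0, x1 + y1, Submodule.add_mem _ hx1 hy1, by abel⟩
  | mul x y _ _ hx hy =>
    obtain ⟨x0, hx0, x1, hx1, rfl⟩ := hx
    obtain ⟨y0, hy0, y1, hy1, rfl⟩ := hy
    refine ⟨x0 * y0 + x1 * y1, add_mem (mul_mem hx0 hy0) (Mo_mul_Mo hx1 hy1),
      x0 * y1 + y0 * x1, Submodule.add_mem _ (Br_mul_Mo hx0 hy1) (Br_mul_Mo hy0 hx1), by ring⟩

lemma rho_neg {m1 : SpinG n k} (hm : (m1 : Cln n k) = -1) (g : SpinG n k) :
    rho n k (m1 * g) = rho n k g := by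
  have h1 : m1 ∈ (rho n k).ker := by
    rw [rho_ker]
    exact mem_zS.mpr (Or.inr hm)
  rw [map_mul, MonoidHom.mem_ker.mp h1, one_mul]

lemma Br_neg {m1 : SpinG n k} (hm : (m1 : Cln n k) = -1) {f : SpinG n k → k} (hf : f ∈ Br n k)
    (g : SpinG n k) : f (m1 * g) = f g := by
  obtain ⟨F, -, rfl⟩ := hf
  show F (rho n k (m1 * g)) = F (rho n k g)
  rw [rho_neg hm]

lemma Mo_neg {m1 : SpinG n k} (hm : (m1 : Cln n k) = -1) {f : SpinG n k → k} (hf : f ∈ Mo n k)
    (g : SpinG n k) : f (m1 * g) = -f g := by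
  unfold Mo at hf
  induction hf using Submodule.span_induction with
  | mem x hx =>
    obtain ⟨c, hc, ψ, rfl⟩ := hx
    show c (m1 * g) * ψ ((m1 * g : SpinG n k) : Cln n k) = -(c g * ψ g)
    have h1 : ((m1 * g : SpinG n k) : Cln n k) = -(g : Cln n k) := by
      show (m1 : Cln n k) * g = _
      rw [hm, neg_mul, one_mul]
    rw [Br_neg hm hc, h1, map_neg, mul_neg]
  | zero => rw [Pi.zero_apply, Pi.zero_apply, neg_zero]
  | add x y _ _ hx hy => rw [Pi.add_apply, Pi.add_apply, hx, hy, neg_add]
  | smul a x _ hx => rw [Pi.smul_apply, Pi.smul_apply, hx, smul_neg]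

/-- NRM: the regular functions of `Spin_n` which are invariant under `-1` come from `SO_n`. -/
theorem nrm {m1 : SpinG n k} (hm : (m1 : Cln n k) = -1) {f : SpinG n k → k} (hf : f ∈ sAlg n k)
    (h : ∀ g, f (m1 * g) = f g) :
    ∃ F ∈ mAlg (isoHom (1 : Matrix n n k)), f = fun g => F (rho n k g) := by
  obtain ⟨f0, hf0, f1, hf1, rfl⟩ := sAlg_split hf
  have h1 : f1 = 0 := by
    funext g
    have h2 := h g
    rw [Pi.add_apply, Pi.add_apply, Br_neg hm hf0, Mo_neg hm hf1] at h2
    have h3 : (2 : k) * f1 g = 0 := by linear_combination -h2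
    exact (mul_eq_zero.mp h3).resolve_left two_ne_zero
  rw [h1, add_zero]
  exact hf0

end Good

end Pool.Agent.Helper96.SPN
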