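import Pool.Agent.Helper96.SPN.OWa

set_option autoImplicit false

/-!
# Row OW: the chart of the oriented `p`-planes
-/

namespace Pool.Agent.Helper96.SPN

open MvPolynomial Matrix Pool.Agent.Helper97.CG Pool.Agent.Helper14.RG Pool.Agent.Helper19.CG
open Pool.Agent.Helper97.SPN

universe u

section Coord

variable {k : Type u} [Field k] {a b q : Type} [Fintype a] [DecidableEq a] [Fintype b]
  [DecidableEq b] [Fintype q] [DecidableEq q]

/-- the first block space of `x`, in the coordinates of `Lm` -/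
def yy (v : Matrix (a ⊕ (a ⊕ b)) (a ⊕ q) k) (x : Matrix (a ⊕ q) (a ⊕ q) k) :
    Matrix (a ⊕ (a ⊕ b)) a k := v * (x * e1 k a q)

/-- first block -/
def aa (v : Matrix (a ⊕ (a ⊕ b)) (a ⊕ q) k) (x : Matrix (a ⊕ q) (a ⊕ q) k) : Matrix a a k :=
  (yy v x).toRows₁

/-- second block over the first -/
noncomputable def ff (v : Matrix (a ⊕ (a ⊕ b)) (a ⊕ q) k) (x : Matrix (a ⊕ q) (a ⊕ q) k) :
    Matrix (a ⊕ b) a k := (yy v x).toRows₂ * (aa v x)⁻¹

omit [Fintype b] [DecidableEq b] [DecidableEq q] in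
lemma yy_eq {v : Matrix (a ⊕ (a ⊕ b)) (a ⊕ q) k} {x : Matrix (a ⊕ q) (a ⊕ q) k}
    (h : (aa v x).det ≠ 0) : yy v x = gr (ff v x) * aa v x := by
  rw [gr_mul]
  unfold ff
  rw [Matrix.mul_assoc, nonsing_inv_mul _ (isUnit_iff_ne_zero.mpr h), Matrix.mul_one]
  exact (fromRows_toRows (yy v x)).symm

omit [DecidableEq q] in
lemma aa_gram {v : Matrix (a ⊕ (a ⊕ b)) (a ⊕ q) k} {x : Matrix (a ⊕ q) (a ⊕ q) k}
    {Jp : Matrix a a k} {Jq : Matrix q q k} (hv : vᵀ * Lm k a b * v = fromBlocks Jp 0 0 Jq)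
    (hx : xᵀ * fromBlocks Jp 0 0 Jq * x = fromBlocks Jp 0 0 Jq) (h : (aa v x).det ≠ 0) :
    (aa v x)ᵀ * Sf (ff v x) * aa v x = Jp := by
  rw [← Lm_gram, ← yy_eq h]
  unfold yy
  calc (v * (x * e1 k a q))ᵀ * Lm k a b * (v * (x * e1 k a q))
      = (e1 k a q)ᵀ * (xᵀ * (vᵀ * Lm k a b * v) * x) * e1 k a q := by
        rw [transpose_mul, transpose_mul]; simp only [Matrix.mul_assoc]
    _ = Jp := by
      rw [hv, hx, Matrix.mul_assoc, blocks_e1]
      unfold e1
      rw [transpose_fromRows, fromCols_mul_fromRows]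
      simp

omit [Fintype b] [DecidableEq b] [DecidableEq q] in
lemma yy_mul (v : Matrix (a ⊕ (a ⊕ b)) (a ⊕ q) k) (x : Matrix (a ⊕ q) (a ⊕ q) k)
    (m1 : Matrix a a k) (m2 : Matrix q q k) :
    yy v (x * fromBlocks m1 0 0 m2) = yy v x * m1 := by
  unfold yy
  have h1 : fromBlocks m1 0 0 m2 * e1 k a q = e1 k a q * m1 := by
    rw [blocks_e1]
    unfold e1
    rw [fromRows_mul, Matrix.one_mul, Matrix.zero_mul]
  rw [Matrix.mul_assoc, h1]
  simp only [Matrix.mul_assoc]

omit [Fintype b] [DecidableEq b] [DecidableEq q] in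
lemma aa_mul (v : Matrix (a ⊕ (a ⊕ b)) (a ⊕ q) k) (x : Matrix (a ⊕ q) (a ⊕ q) k)
    (m1 : Matrix a a k) (m2 : Matrix q q k) :
    aa v (x * fromBlocks m1 0 0 m2) = aa v x * m1 := by
  unfold aa
  rw [yy_mul]
  rfl

omit [Fintype b] [DecidableEq b] [DecidableEq q] in
lemma ff_mul (v : Matrix (a ⊕ (a ⊕ b)) (a ⊕ q) k) (x : Matrix (a ⊕ q) (a ⊕ q) k)
    {m1 : Matrix a a k} (m2 : Matrix q q k) (hm : m1.det ≠ 0) :
    ff v (x * fromBlocks m1 0 0 m2) = ff v x := by
  unfold ff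
  rw [aa_mul, yy_mul, Matrix.mul_inv_rev]
  have h1 : (yy v x * m1).toRows₂ = (yy v x).toRows₂ * m1 := rfl
  rw [h1, Matrix.mul_assoc, ← Matrix.mul_assoc m1, mul_nonsing_inv _ (isUnit_iff_ne_zero.mpr hm),
    Matrix.one_mul]

omit [DecidableEq b] in
lemma sep_aux {u : Matrix (a ⊕ q) (a ⊕ (a ⊕ b)) k} {v : Matrix (a ⊕ (a ⊕ b)) (a ⊕ q) k}
    (huv : u * v = 1) {x m : Matrix (a ⊕ q) (a ⊕ q) k} (hx : x.det = 1)
    (h : (aa v x).det ≠ 0) (h' : (aa v (x * m)).det ≠ 0) (hf : ff v (x * m) = ff v x) :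
    m.toBlocks₂₁ = 0 ∧ m.toBlocks₁₁ = (aa v x)⁻¹ * aa v (x * m) := by
  have hu := isUnit_iff_ne_zero.mpr h
  have h1 : yy v (x * m) = yy v x * ((aa v x)⁻¹ * aa v (x * m)) := by
    rw [yy_eq h', hf, ← Matrix.mul_assoc]
    conv_rhs => rw [yy_eq h, Matrix.mul_assoc (gr (ff v x)), mul_nonsing_inv _ hu,
      Matrix.mul_one]
  have h2 : m * e1 k a q = e1 k a q * ((aa v x)⁻¹ * aa v (x * m)) := by
    have h3 : x * (m * e1 k a q) = x * (e1 k a q * ((aa v x)⁻¹ * aa v (x * m))) := by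
      have h4 := congrArg (fun z => u * z) h1
      unfold yy at h4
      simp only [← Matrix.mul_assoc, huv, Matrix.one_mul] at h4 ⊢
      exact h4
    have h5 := congrArg (fun z => x⁻¹ * z) h3
    have hxu : IsUnit x.det := by rw [hx]; exact isUnit_one
    simp only [← Matrix.mul_assoc, nonsing_inv_mul _ hxu, Matrix.one_mul] at h5 ⊢
    exact h5
  have h3 : m * e1 k a q = fromRows m.toBlocks₁₁ m.toBlocks₂₁ := by
    conv_lhs => rw [← fromBlocks_toBlocks m, blocks_e1]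
  have h4 : e1 k a q * ((aa v x)⁻¹ * aa v (x * m)) =
      fromRows ((aa v x)⁻¹ * aa v (x * m)) 0 := by
    unfold e1
    rw [fromRows_mul, Matrix.one_mul, Matrix.zero_mul]
  rw [h3, h4] at h2
  constructor
  · have h5 := congrArg Matrix.toRows₂ h2
    rwa [toRows₂_fromRows, toRows₂_fromRows] at h5
  · have h5 := congrArg Matrix.toRows₁ h2
    rwa [toRows₁_fromRows, toRows₁_fromRows] at h5

lemma proj_det (m1 : Matrix a a k) (m2 : Matrix q q k) :
    (fromBlocks m1 0 0 m2 * fromBlocks 1 0 0 0 + (1 - fromBlocks 1 0 0 0)).det = m1.det := by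
  have h1 : (1 : Matrix (a ⊕ q) (a ⊕ q) k) - fromBlocks 1 0 0 0 = fromBlocks 0 0 0 1 := by
    rw [← fromBlocks_one, sub_eq_iff_eq_add, fromBlocks_add]
    simp
  rw [h1, fromBlocks_multiply, fromBlocks_add]
  simp

end Coord

section Zero

variable {k : Type u} [Field k]

lemma chart_zero (q : ℕ) (Jp : Matrix (Fin 0) (Fin 0) k) (Jq : Matrix (Fin q) (Fin q) k)
    (h : Proj (fromBlocks 1 0 0 (-1) : Matrix (Fin 0 ⊕ Fin q) (Fin 0 ⊕ Fin q) k)
    (fromBlocks 1 0 0 0)) :
    HC0 (isoHom (fromBlocks Jp 0 0 Jq)) (fromBlocks 1 0 0 (-1)) (fromBlocks 1 0 0 0) h := by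
  have hall : ∀ g : IsoG (fromBlocks Jp 0 0 Jq),
      g ∈ cm0 (isoHom (fromBlocks Jp 0 0 Jq)) (fromBlocks 1 0 0 (-1)) (fromBlocks 1 0 0 0) h := by
    intro g
    have h1 : isoHom (fromBlocks Jp 0 0 Jq) g =
        fromBlocks 1 0 0 (isoHom (fromBlocks Jp 0 0 Jq) g).toBlocks₂₂ := by
      ext i j
      rcases i with i | i
      · exact i.elim0
      · rcases j with j | j
        · exact j.elim0
        · rfl
    rw [mem_cm0, h1]
    refine ⟨?_, ?_⟩
    · rw [fromBlocks_multiply, fromBlocks_multiply]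
      simp
    · rw [proj_det, det_one]
  refine ⟨Fin 0, inferInstance, inferInstance, ⟨?_⟩⟩
  exact
    { hH := cm0_le _ _ _ _
      q0 := 1
      q0_mem := one_mem _
      q0_ne := one_ne_zero
      t := fun _ _ => 0
      treg := fun j => j.elim0
      sep := fun g g' _ _ _ => ⟨g⁻¹ * g', hall _, by rw [mul_inv_cancel_left]⟩
      dom := by
        intro P hP
        refine ⟨1, one_ne_zero, ?_⟩
        rw [P.eq_C_of_isEmpty] at hP ⊢
        rw [eval_C]
        intro h0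
        exact hP (by rw [h0, map_zero])
      inv := fun _ _ _ _ j => j.elim0
      equiv := fun _ _ => ⟨0, fun _ _ => ⟨one_ne_zero, fun j => j.elim0⟩⟩ }

end Zero

section Main

variable {k : Type u} [Field k] [IsAlgClosed k] [CharZero k]

lemma chart_succ (hE : ST_EQV k) (hR : ST_REFL k) (p q : ℕ)
    (Jp : Matrix (Fin (p + 1)) (Fin (p + 1)) k) (Jq : Matrix (Fin q) (Fin q) k)
    (h : Proj (fromBlocks 1 0 0 (-1) : Matrix (Fin (p + 1) ⊕ Fin q) (Fin (p + 1) ⊕ Fin q) k)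
    (fromBlocks 1 0 0 0)) (hpq : p + 1 ≤ q) (hp : IsForm 1 Jp) (hq : IsForm 1 Jq) :
    HC0 (isoHom (fromBlocks Jp 0 0 Jq)) (fromBlocks 1 0 0 (-1)) (fromBlocks 1 0 0 0) h := by
  have hJ := isForm_blocks hp hq
  have hinf : Infinite k := IsAlgClosed.instInfinite
  have hqn : Nonempty (Fin q) := ⟨⟨0, by omega⟩⟩
  obtain ⟨r, hr⟩ : ∃ r, q = (p + 1) + r := ⟨q - (p + 1), by omega⟩
  have hc : Fintype.card (Fin (p + 1) ⊕ Fin r) = Fintype.card (Fin q) := by
    simp only [Fintype.card_sum, Fintype.card_fin]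
    omega
  have hc2 : Fintype.card (Fin (p + 1) ⊕ Fin q) =
      Fintype.card (Fin (p + 1) ⊕ (Fin (p + 1) ⊕ Fin r)) := by
    simp only [Fintype.card_sum, Fintype.card_fin] at hc ⊢
    omega
  obtain ⟨u, hu⟩ := hE (Fin (p + 1) ⊕ Fin q) (Fin (p + 1) ⊕ (Fin (p + 1) ⊕ Fin r)) 1 _ _ hJ
    isForm_Lm hc2
  obtain ⟨v, huv, hv⟩ : ∃ v : Matrix (Fin (p + 1) ⊕ (Fin (p + 1) ⊕ Fin r))
      (Fin (p + 1) ⊕ Fin q) k, u * v = 1 ∧
      vᵀ * Lm k (Fin (p + 1)) (Fin r) * v = fromBlocks Jp 0 0 Jq := by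
    have hvu : (Lm k (Fin (p + 1)) (Fin r) * (uᵀ * fromBlocks Jp 0 0 Jq)) * u = 1 := by
      rw [Matrix.mul_assoc, hu, Lm_mul_self]
    have huv : u * (Lm k (Fin (p + 1)) (Fin r) * (uᵀ * fromBlocks Jp 0 0 Jq)) = 1 :=
      (Matrix.mul_eq_one_comm_of_card_eq _ _ _ hc2.symm).mp hvu
    refine ⟨Lm k (Fin (p + 1)) (Fin r) * (uᵀ * fromBlocks Jp 0 0 Jq), huv, ?_⟩
    have h1 : Lm k (Fin (p + 1)) (Fin r) *
        (Lm k (Fin (p + 1)) (Fin r) * (uᵀ * fromBlocks Jp 0 0 Jq)) =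
        uᵀ * fromBlocks Jp 0 0 Jq := by
      rw [← Matrix.mul_assoc, Lm_mul_self, Matrix.one_mul]
    rw [Matrix.mul_assoc, h1, ← Matrix.mul_assoc, ← transpose_mul, huv, transpose_one,
      Matrix.one_mul]
  have hvu : v * u = 1 := (Matrix.mul_eq_one_comm_of_card_eq _ _ _ hc2).mp huv
  have hiso : ∀ x : IsoG (fromBlocks Jp 0 0 Jq),
      (isoHom _ x)ᵀ * fromBlocks Jp 0 0 Jq * isoHom _ x = fromBlocks Jp 0 0 Jq := fun x => x.2
  have hdet : ∀ x : IsoG (fromBlocks Jp 0 0 Jq), (isoHom _ x).det = 1 := fun x => x.1.2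
  have hmem : ∀ i j, (fun g : IsoG (fromBlocks Jp 0 0 Jq) => isoHom _ g i j) ∈
      mAlg (isoHom (fromBlocks Jp 0 0 Jq)) := fun i j => Algebra.subset_adjoin ⟨i, j, rfl⟩
  have hymem : ∀ i j, (fun g : IsoG (fromBlocks Jp 0 0 Jq) => yy v (isoHom _ g) i j) ∈
      mAlg (isoHom (fromBlocks Jp 0 0 Jq)) := fun i j =>
    mul_mem_alg _ (fun _ => v) (fun g => isoHom _ g * e1 k (Fin (p + 1)) (Fin q))
      (fun _ _ => const_mem _ _)
      (mul_mem_alg _ (fun g => isoHom _ g) (fun _ => e1 k (Fin (p + 1)) (Fin q)) hmem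
        (fun _ _ => const_mem _ _)) i j
  -- the open set
  have hq0 : ∀ g : IsoG (fromBlocks Jp 0 0 Jq),
      (aa v (isoHom _ g)).det * (aa v (isoHom _ g) * Jp⁻¹ * (aa v (isoHom _ g))ᵀ) 0 0 ≠ 0 ↔
      (aa v (isoHom _ g)).det ≠ 0 ∧ mn (ff v (isoHom _ g)) ≠ 0 := by
    intro g
    constructor
    · intro h1
      have h2 := left_ne_zero_of_mul h1
      have h3 := aa_gram hv (hiso g) h2
      refine ⟨h2, ?_⟩
      rw [← q0_formula hp.det_ne h3]
      refine mul_ne_zero (right_ne_zero_of_mul h1) fun h0 => hp.det_ne ?_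
      rw [← h3, det_mul, det_mul, h0, mul_zero, zero_mul]
    · rintro ⟨h2, h4⟩
      have h3 := aa_gram hv (hiso g) h2
      rw [← q0_formula hp.det_ne h3] at h4
      exact mul_ne_zero h2 (left_ne_zero_of_mul h4)
  -- the determinant of the Gram matrix
  have hgd : ∀ g : IsoG (fromBlocks Jp 0 0 Jq), (aa v (isoHom _ g)).det ≠ 0 →
      (Sf (ff v (isoHom _ g))).det = Jp.det * ((aa v (isoHom _ g)).det)⁻¹ ^ 2 := by
    intro g h1
    have h2 := congrArg det (aa_gram hv (hiso g) h1)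
    rw [det_mul, det_mul, det_transpose] at h2
    rw [← h2]
    field_simp
  -- block diagonal elements
  have hcm : ∀ x ∈ cm (isoHom (fromBlocks Jp 0 0 Jq)) (fromBlocks 1 0 0 (-1)),
      isoHom _ x = fromBlocks (isoHom _ x).toBlocks₁₁ 0 0 (isoHom _ x).toBlocks₂₂ ∧
      (isoHom _ x).toBlocks₁₁.det ≠ 0 ∧
      ((isoHom _ x).toBlocks₁₁.det)⁻¹ = (isoHom _ x).toBlocks₁₁.det := by
    intro x hx
    have h1 := comm_blocks hx
    have h2 := hiso x
    have h3 : ((isoHom _ x).toBlocks₁₁)ᵀ * Jp * (isoHom _ x).toBlocks₁₁ = Jp := by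
      rw [h1, fromBlocks_transpose, fromBlocks_multiply, fromBlocks_multiply] at h2
      have h4 := (fromBlocks_inj.mp h2).1
      simpa using h4
    refine ⟨h1, ?_, ?_⟩
    · rcases det_sq_of_isom hp.det_ne h3 with h4 | h4 <;> rw [h4]
      · exact one_ne_zero
      · exact neg_ne_zero.mpr one_ne_zero
    · rcases det_sq_of_isom hp.det_ne h3 with h4 | h4 <;> rw [h4]
      · exact inv_one
      · rw [inv_neg, inv_one]
  have hact : ∀ x ∈ cm (isoHom (fromBlocks Jp 0 0 Jq)) (fromBlocks 1 0 0 (-1)),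
      ∀ g : IsoG (fromBlocks Jp 0 0 Jq),
      (aa v (isoHom _ (g * x))).det =
        (aa v (isoHom _ g)).det * (isoHom _ x).toBlocks₁₁.det ∧
      ff v (isoHom _ (g * x)) = ff v (isoHom _ g) := by
    intro x hx g
    obtain ⟨h1, h2, -⟩ := hcm x hx
    rw [map_mul]
    generalize isoHom (fromBlocks Jp 0 0 Jq) x = m at h1 h2 ⊢
    refine ⟨?_, ?_⟩
    · conv_lhs => rw [h1, aa_mul, det_mul]
    · conv_lhs => rw [h1]
      exact ff_mul _ _ _ h2
  -- existence of points
  have hdom : ∀ z : (Fin (p + 1) ⊕ Fin r) × Fin (p + 1) → k, z (Sum.inl 0, 0) ≠ 0 →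
      mn (Matrix.of fun i j => z (i, j)) ≠ 0 →
      ∃ g : IsoG (fromBlocks Jp 0 0 Jq), (aa v (isoHom _ g)).det ≠ 0 ∧
        mn (ff v (isoHom _ g)) ≠ 0 ∧ ((aa v (isoHom _ g)).det)⁻¹ = z (Sum.inl 0, 0) ∧
        ∀ i j, ¬ (i = Sum.inl 0 ∧ j = 0) → ff v (isoHom _ g) i j = z (i, j) := by
    intro z hz hm
    generalize hF0 : (Matrix.of fun i j => z (i, j) :
      Matrix (Fin (p + 1) ⊕ Fin r) (Fin (p + 1)) k) = F0 at hm
    have hF0' : ∀ i j, F0 i j = z (i, j) := by
      intro i j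
      rw [← hF0]
      rfl
    let m0 : k := F0 (Sum.inl 0) 0 +
      (Jp.det * z (Sum.inl 0, 0) ^ 2 - (Sf F0).det) / (2 * mn F0)
    let F : Matrix (Fin (p + 1) ⊕ Fin r) (Fin (p + 1)) k :=
      Matrix.of fun i j => if i = Sum.inl 0 ∧ j = 0 then m0 else F0 i j
    have hF : ∀ i j, ¬ (i = Sum.inl 0 ∧ j = 0) → F i j = F0 i j := fun i j hij => if_neg hij
    have hFc : F (Sum.inl 0) 0 = m0 := by
      show (if (Sum.inl 0 : Fin (p + 1) ⊕ Fin r) = Sum.inl 0 ∧ (0 : Fin (p + 1)) = 0 then m0 else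
        F0 (Sum.inl 0) 0) = m0
      exact if_pos ⟨rfl, rfl⟩
    have hFm : mn F = mn F0 := mn_off hF
    have hFd : (Sf F).det = Jp.det * z (Sum.inl 0, 0) ^ 2 := by
      have h1 := det_Sf_off hF
      rw [hFc, hFm] at h1
      have h2 : 2 * (m0 - F0 (Sum.inl 0) 0) * mn F0 =
          Jp.det * z (Sum.inl 0, 0) ^ 2 - (Sf F0).det := by
        show 2 * (F0 (Sum.inl 0) 0 +
          (Jp.det * z (Sum.inl 0, 0) ^ 2 - (Sf F0).det) / (2 * mn F0) - F0 (Sum.inl 0) 0) *
          mn F0 = _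
        field_simp
        ring
      rw [h2] at h1
      linear_combination h1
    have hSform : IsForm 1 (Sf F) := by
      refine ⟨Or.inl rfl, ?_, ?_⟩
      · rw [Sf_symm, one_smul]
      · rw [hFd]
        exact mul_ne_zero hp.det_ne (pow_ne_zero _ hz)
    obtain ⟨de, hde1, hde2⟩ : ∃ de : Matrix (Fin (p + 1)) (Fin (p + 1)) k,
        deᵀ * Jp * de = Sf F ∧ de.det = z (Sum.inl 0, 0) := by
      obtain ⟨de, hde⟩ := hE (Fin (p + 1)) (Fin (p + 1)) 1 _ _ hp hSform rfl
      have h1 := congrArg det hde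
      rw [det_mul, det_mul, det_transpose, hFd] at h1
      have h2 : de.det = z (Sum.inl 0, 0) ∨ de.det = -z (Sum.inl 0, 0) := by
        apply sq_eq_sq_iff_eq_or_eq_neg.mp
        apply mul_left_cancel₀ hp.det_ne
        linear_combination h1
      rcases h2 with h2 | h2
      · exact ⟨de, hde, h2⟩
      · obtain ⟨R, hR1, hR2⟩ := hR (Fin (p + 1)) Jp hp
        refine ⟨R * de, ?_, ?_⟩
        · calc (R * de)ᵀ * Jp * (R * de) = deᵀ * (Rᵀ * Jp * R) * de := by
                rw [transpose_mul]; simp only [Matrix.mul_assoc]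
            _ = Sf F := by rw [hR1, hde]
        · rw [det_mul, hR2, h2]
          ring
    have hdu : IsUnit de.det := by
      rw [hde2]; exact isUnit_iff_ne_zero.mpr hz
    have hal : (de⁻¹)ᵀ * Sf F * de⁻¹ = Jp := by
      have h1 : (de⁻¹)ᵀ * deᵀ = 1 := by
        rw [← transpose_mul, mul_nonsing_inv _ hdu, transpose_one]
      calc (de⁻¹)ᵀ * Sf F * de⁻¹ = ((de⁻¹)ᵀ * deᵀ) * Jp * (de * de⁻¹) := by
            rw [← hde1]; simp only [Matrix.mul_assoc]
        _ = Jp := by rw [h1, mul_nonsing_inv _ hdu, Matrix.one_mul, Matrix.mul_one]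
    obtain ⟨g, hg⟩ := ext_isom hE hR hp hq hc hu F de⁻¹ hal
    have hyg : yy v (isoHom _ g) = gr F * de⁻¹ := by
      show v * (isoHom _ g * e1 k _ _) = _
      rw [hg, ← Matrix.mul_assoc, hvu, Matrix.one_mul]
    have hag : aa v (isoHom _ g) = de⁻¹ := by
      show (yy v (isoHom _ g)).toRows₁ = _
      rw [hyg, gr_mul, toRows₁_fromRows]
    have hdi : (de⁻¹).det = (z (Sum.inl 0, 0))⁻¹ := by
      rw [det_nonsing_inv, Ring.inverse_eq_inv', hde2]
    have had : (aa v (isoHom _ g)).det = (z (Sum.inl 0, 0))⁻¹ := by rw [hag, hdi]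
    have hfg : ff v (isoHom _ g) = F := by
      show (yy v (isoHom _ g)).toRows₂ * (aa v (isoHom _ g))⁻¹ = _
      rw [hyg, gr_mul, toRows₂_fromRows, hag, Matrix.mul_assoc, mul_nonsing_inv, Matrix.mul_one]
      rw [hdi]
      exact isUnit_iff_ne_zero.mpr (inv_ne_zero hz)
    refine ⟨g, ?_, ?_, ?_, ?_⟩
    · rw [had]
      exact inv_ne_zero hz
    · rw [hfg, hFm]
      exact hm
    · rw [had, inv_inv]
    · intro i j hij
      rw [hfg, hF i j hij, hF0']
  -- the minor as a polynomial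
  let Fg : Matrix (Fin (p + 1) ⊕ Fin r) (Fin (p + 1))
    (MvPolynomial ((Fin (p + 1) ⊕ Fin r) × Fin (p + 1)) k) := Matrix.of fun i j => X (i, j)
  have hev : ∀ z : (Fin (p + 1) ⊕ Fin r) × Fin (p + 1) → k, eval z (mn Fg) =
      mn (Matrix.of fun i j => z (i, j)) := by
    intro z
    unfold mn
    rw [RingHom.map_det]
    congr 1
    ext i j
    have e3 : ∀ a c, eval z (Fg a c) = z (a, c) := fun a c => eval_X _
    show eval z (Sf Fg i.succ j.succ) = Sf (Matrix.of fun i j => z (i, j)) i.succ j.succ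
    rw [Sf_apply, Sf_apply]
    simp only [map_add, map_sum, map_mul, e3, Matrix.of_apply]
  have hmn0 : mn Fg ≠ 0 := by
    intro h0
    have h1 := hev fun s => Sum.elim (fun i => if i = s.2 then (2 : k)⁻¹ else 0) (fun _ => 0) s.1
    rw [h0, map_zero] at h1
    have h2 : mn (Matrix.of fun (i : Fin (p + 1) ⊕ Fin r) (j : Fin (p + 1)) =>
        Sum.elim (fun i => if i = j then (2 : k)⁻¹ else 0) (fun _ => 0) i) = 1 := by
      unfold mn
      have h3 : (Sf (Matrix.of fun (i : Fin (p + 1) ⊕ Fin r) (j : Fin (p + 1)) =>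
          Sum.elim (fun i => if i = j then (2 : k)⁻¹ else 0) (fun _ => 0) i)).submatrix
          Fin.succ Fin.succ = 1 := by
        ext i j
        show Sf _ i.succ j.succ = _
        rw [Sf_apply]
        simp only [Matrix.of_apply, Sum.elim_inl, Sum.elim_inr, mul_zero, Finset.sum_const_zero,
          add_zero, Fin.succ_inj]
        by_cases hij : i = j
        · subst hij
          rw [if_pos rfl, Matrix.one_apply_eq]
          field_simp
          norm_num
        · rw [if_neg hij, if_neg (Ne.symm hij), Matrix.one_apply_ne hij, add_zero]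
      rw [h3, det_one]
    exact zero_ne_one (h1.trans h2)
  have hdom2 : ∀ P : MvPolynomial ((Fin (p + 1) ⊕ Fin r) × Fin (p + 1)) k, P ≠ 0 →
      ∃ g : IsoG (fromBlocks Jp 0 0 Jq), (aa v (isoHom _ g)).det ≠ 0 ∧
        mn (ff v (isoHom _ g)) ≠ 0 ∧
        eval (fun j => if j.1 = Sum.inl 0 ∧ j.2 = 0 then ((aa v (isoHom _ g)).det)⁻¹ else
          ff v (isoHom _ g) j.1 j.2) P ≠ 0 := by
    intro P hP
    obtain ⟨z, hz⟩ : ∃ z, eval z (P * (mn Fg * X (Sum.inl 0, 0))) ≠ 0 := by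
      by_contra hcon
      push Not at hcon
      exact mul_ne_zero hP (mul_ne_zero hmn0 (X_ne_zero _))
        (MvPolynomial.funext fun z => by rw [hcon z, map_zero])
    rw [map_mul, map_mul, eval_X, hev] at hz
    have h1 := right_ne_zero_of_mul hz
    obtain ⟨g, hg1, hg2, hg3, hg4⟩ := hdom z (right_ne_zero_of_mul h1) (left_ne_zero_of_mul h1)
    refine ⟨g, hg1, hg2, ?_⟩
    have h2 : (fun j : (Fin (p + 1) ⊕ Fin r) × Fin (p + 1) => if j.1 = Sum.inl 0 ∧ j.2 = 0 then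
        ((aa v (isoHom _ g)).det)⁻¹ else ff v (isoHom _ g) j.1 j.2) = z := by
      funext j
      obtain ⟨i, j⟩ := j
      by_cases hij : i = Sum.inl 0 ∧ j = 0
      · rw [if_pos hij, hg3, hij.1, hij.2]
      · rw [if_neg hij]
        exact hg4 i j hij
    rw [h2]
    exact left_ne_zero_of_mul hz
  refine ⟨(Fin (p + 1) ⊕ Fin r) × Fin (p + 1), inferInstance, inferInstance, ⟨?_⟩⟩
  exact
    { hH := cm0_le _ _ _ _
      q0 := fun g => (aa v (isoHom _ g)).det *
        (aa v (isoHom _ g) * Jp⁻¹ * (aa v (isoHom _ g))ᵀ) 0 0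
      q0_mem := by
        refine mul_mem (det_mem_alg _ _ fun i j => hymem _ _) ?_
        exact mul_mem_alg _ (fun g => aa v (isoHom _ g) * Jp⁻¹)
          (fun g => (aa v (isoHom _ g))ᵀ)
          (mul_mem_alg _ (fun g => aa v (isoHom _ g)) (fun _ => Jp⁻¹) (fun _ _ => hymem _ _)
            (fun _ _ => const_mem _ _)) (fun _ _ => hymem _ _) 0 0
      q0_ne := by
        intro h0
        obtain ⟨g, hg1, hg2, -⟩ := hdom2 1 one_ne_zero
        exact (hq0 g).mpr ⟨hg1, hg2⟩ (congrFun h0 g)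
      t := fun g j => if j.1 = Sum.inl 0 ∧ j.2 = 0 then ((aa v (isoHom _ g)).det)⁻¹ else
        ff v (isoHom _ g) j.1 j.2
      treg := by
        intro j
        by_cases hj : j.1 = Sum.inl 0 ∧ j.2 = 0
        · simp only [if_pos hj]
          exact inv_mem_RegU (det_mem_alg _ _ fun i j => hymem _ _) fun g hg => ((hq0 g).mp hg).1
        · simp only [if_neg hj]
          refine mul_mem_alg _ _ _ (fun i l => le_RegU _ _ (hymem _ _)) (fun i l => ?_) _ _
          exact nonsing_inv_mem_RegU _ (fun i l => le_RegU _ _ (hymem _ _))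
            (fun g hg => ((hq0 g).mp hg).1) i l
      sep := by
        intro g g' hg hg' ht
        obtain ⟨hg1, hg2⟩ := (hq0 g).mp hg
        obtain ⟨hg1', hg2'⟩ := (hq0 g').mp hg'
        have ht1 : ((aa v (isoHom _ g)).det)⁻¹ = ((aa v (isoHom _ g')).det)⁻¹ := by
          have h1 := congrFun ht (Sum.inl 0, 0)
          simpa using h1
        have ht2 : ∀ i j, ¬ (i = Sum.inl 0 ∧ j = 0) →
            ff v (isoHom _ g') i j = ff v (isoHom _ g) i j := by
          intro i j hij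
          have h1 := congrFun ht (i, j)
          simp only [if_neg hij] at h1
          exact h1.symm
        have hfc : ff v (isoHom _ g') (Sum.inl 0) 0 = ff v (isoHom _ g) (Sum.inl 0) 0 := by
          have h1 := det_Sf_off ht2
          rw [hgd g hg1, hgd g' hg1', ht1, sub_self] at h1
          have h2 := (mul_eq_zero.mp h1.symm).resolve_right hg2'
          exact sub_eq_zero.mp ((mul_eq_zero.mp h2).resolve_left two_ne_zero)
        have hff : ff v (isoHom _ g') = ff v (isoHom _ g) := by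
          ext i j
          by_cases hij : i = Sum.inl 0 ∧ j = 0
          · rw [hij.1, hij.2]
            exact hfc
          · exact ht2 i j hij
        refine ⟨g⁻¹ * g', ?_, by rw [mul_inv_cancel_left]⟩
        have hxm : isoHom _ g' = isoHom _ g * isoHom _ (g⁻¹ * g') := by
          rw [← map_mul, mul_inv_cancel_left]
        have hm := hiso (g⁻¹ * g')
        rw [mem_cm0]
        rw [hxm] at hff hg1' ht1
        obtain ⟨h21, h11⟩ := sep_aux huv (hdet g) hg1 hg1' hff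
        have hd : (isoHom _ (g⁻¹ * g')).toBlocks₁₁.det = 1 := by
          rw [h11, det_mul, det_nonsing_inv, Ring.inverse_eq_inv', inv_injective ht1,
            inv_mul_cancel₀ hg1']
        have hb := isom_blocks hp.det_ne hm h21
        refine ⟨?_, ?_⟩
        · rw [hb]
          exact blocks_comm _ _
        · rw [hb, proj_det, hd]
      dom := by
        intro P hP
        obtain ⟨g, hg1, hg2, hg3⟩ := hdom2 P hP
        exact ⟨g, (hq0 g).mpr ⟨hg1, hg2⟩, hg3⟩
      inv := by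
        intro x hx g hg j
        have hx1 := cm0_le _ _ _ _ hx
        obtain ⟨h1, h2, -⟩ := hcm x hx1
        obtain ⟨h3, h4⟩ := hact x hx1 g
        have h5 : (isoHom _ x).toBlocks₁₁.det = 1 := by
          have h6 := (mem_cm0.mp hx).2
          rw [h1, proj_det] at h6
          exact h6
        rw [h3, h4, h5, mul_one]
      equiv := by
        intro x hx
        obtain ⟨h1, h2, h2'⟩ := hcm x hx
        refine ⟨diagonal fun j => if j.1 = Sum.inl 0 ∧ j.2 = 0 then
          (isoHom _ x).toBlocks₁₁.det else 1, fun g hg => ?_⟩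
        obtain ⟨hg1, hg2⟩ := (hq0 g).mp hg
        obtain ⟨h3, h4⟩ := hact x hx g
        refine ⟨(hq0 _).mpr ⟨?_, ?_⟩, fun j => ?_⟩
        · rw [h3]
          exact mul_ne_zero hg1 h2
        · rw [h4]
          exact hg2
        · rw [Finset.sum_eq_single j]
          · rw [diagonal_apply_eq, h3, h4]
            by_cases hj : j.1 = Sum.inl 0 ∧ j.2 = 0
            · rw [if_pos hj, if_pos hj, if_pos hj, mul_inv, h2', mul_comm]
            · rw [if_neg hj, if_neg hj, if_neg hj, one_mul]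
          · intro l _ hl
            rw [diagonal_apply_ne _ hl.symm, zero_mul]
          · intro hl
            exact absurd (Finset.mem_univ _) hl }

end Main

end Pool.Agent.Helper96.SPN

namespace Pool.Agent.Helper97.SPN

open Pool.Agent.Helper97.CG Pool.Agent.Helper96.SPN

universe u

theorem st_OW {k : Type u} [Field k] [IsAlgClosed k] [CharZero k] (hE : ST_EQV k)
    (hR : ST_REFL k) : ST_OW k := by
  intro p q Jp Jq h hpq hp hq
  rcases p with _ | p
  · exact chart_zero q Jp Jq h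
  · exact chart_succ hE hR p q Jp Jq h hpq hp hq

end Pool.Agent.Helper97.SPN
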