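import Pool.Agent.Helper97.SPN.Stmts
import Pool.Agent.Helper19.CG.W1

set_option autoImplicit false

/-!
# Row OW: matrices (the form, the Gram matrix of a graph, extension of partial isometries)
-/

namespace Pool.Agent.Helper96.SPN

open MvPolynomial Matrix Pool.Agent.Helper97.CG Pool.Agent.Helper14.RG Pool.Agent.Helper19.CG
open Pool.Agent.Helper97.SPN

universe u

section Form

variable {R : Type*} [CommRing R] {a b : Type} [Fintype a] [DecidableEq a] [Fintype b]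
  [DecidableEq b]

/-- the form `2 x y + z²` -/
def Lm (R : Type*) [CommRing R] (a b : Type) [DecidableEq a] [DecidableEq b] :
    Matrix (a ⊕ (a ⊕ b)) (a ⊕ (a ⊕ b)) R :=
  fromBlocks 0 (fromCols 1 0) (fromRows 1 0) (fromBlocks 0 0 0 1)

/-- the Gram matrix of the graph of `F` -/
def Sf (F : Matrix (a ⊕ b) a R) : Matrix a a R :=
  F.toRows₁ᵀ + (F.toRows₁ + F.toRows₂ᵀ * F.toRows₂)

omit [Fintype a] [DecidableEq a] [DecidableEq b] in
lemma Sf_apply (F : Matrix (a ⊕ b) a R) (i j : a) :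
    Sf F i j = F (Sum.inl j) i + (F (Sum.inl i) j + ∑ l, F (Sum.inr l) i * F (Sum.inr l) j) := rfl

omit [Fintype a] [DecidableEq a] [DecidableEq b] in
lemma Sf_symm (F : Matrix (a ⊕ b) a R) : (Sf F)ᵀ = Sf F := by
  ext i j
  rw [transpose_apply, Sf_apply, Sf_apply]
  have h : ∑ l, F (Sum.inr l) j * F (Sum.inr l) i = ∑ l, F (Sum.inr l) i * F (Sum.inr l) j :=
    Finset.sum_congr rfl fun l _ => mul_comm _ _
  rw [h]
  ring

lemma Lm_mul_self : Lm R a b * Lm R a b = 1 := by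
  unfold Lm
  rw [fromBlocks_multiply, ← fromBlocks_one]
  congr 1
  · rw [fromCols_mul_fromRows]
    simp
  · rw [fromCols_mul_fromBlocks]
    simp
  · rw [fromBlocks_mul_fromRows]
    simp
  · rw [fromRows_mul_fromCols, fromBlocks_multiply]
    simp only [Matrix.mul_zero, Matrix.one_mul, Matrix.zero_mul, add_zero, zero_add,
      fromBlocks_add]
    exact fromBlocks_one

omit [Fintype a] [Fintype b] in
lemma Lm_symm : (Lm R a b)ᵀ = Lm R a b := by
  unfold Lm
  rw [fromBlocks_transpose, transpose_fromCols, transpose_fromRows, fromBlocks_transpose]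
  simp

/-- the first columns of the identity -/
def e1 (R : Type*) [CommRing R] (a c : Type) [DecidableEq a] : Matrix (a ⊕ c) a R := fromRows 1 0

lemma blocks_e1 {c n m : Type} [Fintype c] (A : Matrix n a R) (B : Matrix n c R)
    (C : Matrix m a R) (D : Matrix m c R) : fromBlocks A B C D * e1 R a c = fromRows A C := by
  unfold e1
  rw [fromBlocks_mul_fromRows]
  simp

/-- `diag(1, D)` -/
def bd1 (a : Type) [DecidableEq a] {c d : Type} (D : Matrix c d R) : Matrix (a ⊕ c) (a ⊕ d) R :=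
  fromBlocks 1 0 0 D

lemma bd1_e1 {c d : Type} [Fintype d] (D : Matrix c d R) : bd1 a D * e1 R a d = e1 R a c :=
  blocks_e1 _ _ _ _

lemma bd1_gram {c d : Type} [Fintype c] (A : Matrix a a R) (B : Matrix c c R) (D : Matrix c d R) :
    (bd1 a D)ᵀ * fromBlocks A 0 0 B * bd1 a D = fromBlocks A 0 0 (Dᵀ * B * D) := by
  unfold bd1
  rw [fromBlocks_transpose, fromBlocks_multiply, fromBlocks_multiply]
  simp

lemma det_bd1 {c : Type} [Fintype c] [DecidableEq c] (D : Matrix c c R) :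
    (bd1 a D).det = D.det := by
  unfold bd1
  rw [det_fromBlocks_zero₂₁, det_one, one_mul]

/-- the graph of `F` -/
def gr (F : Matrix (a ⊕ b) a R) : Matrix (a ⊕ (a ⊕ b)) a R := fromRows 1 F

omit [Fintype b] [DecidableEq b] in
lemma gr_mul (F : Matrix (a ⊕ b) a R) (al : Matrix a a R) :
    gr F * al = fromRows al (F * al) := by
  unfold gr
  rw [fromRows_mul, Matrix.one_mul]

lemma Lm_graph (F : Matrix (a ⊕ b) a R) : (gr F)ᵀ * Lm R a b * gr F = Sf F := by
  have h1 : F = fromRows F.toRows₁ F.toRows₂ := (fromRows_toRows F).symm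
  have h5 : Lm R a b * gr F = fromRows F.toRows₁ (fromRows 1 F.toRows₂) := by
    unfold Lm gr
    rw [fromBlocks_mul_fromRows]
    conv_lhs => rw [h1, fromCols_mul_fromRows, fromBlocks_mul_fromRows, fromRows_mul]
    congr 1
    · simp
    · ext i j
      rcases i with i | i <;> simp
  rw [Matrix.mul_assoc, h5]
  unfold gr
  rw [transpose_fromRows, fromCols_mul_fromRows]
  conv_lhs => rw [h1, transpose_fromRows, fromCols_mul_fromRows]
  unfold Sf
  simp only [toRows₁_fromRows, toRows₂_fromRows, transpose_one, Matrix.one_mul, Matrix.mul_one]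
  abel

lemma Lm_gram (F : Matrix (a ⊕ b) a R) (al : Matrix a a R) :
    (gr F * al)ᵀ * Lm R a b * (gr F * al) = alᵀ * Sf F * al := by
  rw [← Lm_graph F, transpose_mul]
  simp only [Matrix.mul_assoc]

end Form

section Form2

variable {k : Type u} [Field k] {a b : Type} [Fintype a] [DecidableEq a] [Fintype b]
  [DecidableEq b]

lemma isForm_Lm : IsForm (1 : k) (Lm k a b) := by
  refine ⟨Or.inl rfl, ?_, ?_⟩
  · rw [Lm_symm, one_smul]
  · intro h
    have h1 := congrArg det (Lm_mul_self (R := k) (a := a) (b := b))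
    rw [det_mul, h, zero_mul, det_one] at h1
    exact zero_ne_one h1

/-- orthogonal complement of a block -/
lemma split_form {c : Type} [Fintype c] [DecidableEq c] {Jp : Matrix a a k} (hp : Jp.det ≠ 0)
    {G : Matrix (a ⊕ c) (a ⊕ c) k} (hG : IsForm 1 G)
    (h11 : (e1 k a c)ᵀ * G * e1 k a c = Jp) :
    ∃ (T : Matrix (a ⊕ c) (a ⊕ c) k) (D : Matrix c c k), T * e1 k a c = e1 k a c ∧
      Tᵀ * G * T = fromBlocks Jp 0 0 D ∧ IsForm 1 D := by
  have hpu : IsUnit Jp.det := isUnit_iff_ne_zero.mpr hp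
  have h1 : G.toBlocks₁₁ = Jp := by
    rw [← h11]
    conv_rhs => rw [← fromBlocks_toBlocks G, Matrix.mul_assoc, blocks_e1]
    unfold e1
    rw [transpose_fromRows, fromCols_mul_fromRows]
    simp
  have hGb : G = fromBlocks Jp G.toBlocks₁₂ G.toBlocks₂₁ G.toBlocks₂₂ := by
    conv_lhs => rw [← fromBlocks_toBlocks G, h1]
  let T : Matrix (a ⊕ c) (a ⊕ c) k := fromBlocks 1 (-(Jp⁻¹ * G.toBlocks₁₂)) 0 1
  have hTd : T.det ≠ 0 := by
    show (fromBlocks 1 (-(Jp⁻¹ * G.toBlocks₁₂)) 0 1).det ≠ 0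
    rw [det_fromBlocks_zero₂₁, det_one, det_one, mul_one]
    exact one_ne_zero
  have hT1 : T * e1 k a c = e1 k a c := blocks_e1 _ _ _ _
  have hG1 := isForm_gram hG hTd
  have hz : Jp * -(Jp⁻¹ * G.toBlocks₁₂) + G.toBlocks₁₂ * (1 : Matrix c c k) = 0 := by
    rw [Matrix.mul_neg, ← Matrix.mul_assoc, mul_nonsing_inv _ hpu, Matrix.one_mul,
      Matrix.mul_one, neg_add_cancel]
  have hGT : G * T = fromBlocks Jp 0 G.toBlocks₂₁
      (G.toBlocks₂₁ * -(Jp⁻¹ * G.toBlocks₁₂) + G.toBlocks₂₂) := by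
    have h2 : G * T = fromBlocks Jp G.toBlocks₁₂ G.toBlocks₂₁ G.toBlocks₂₂ * T := by
      conv_lhs => rw [hGb]
    rw [h2, fromBlocks_multiply, hz]
    simp
  have hb : ∃ B D, Tᵀ * G * T = fromBlocks Jp 0 B D := by
    have h3 : Tᵀ = fromBlocks 1 0 (-(Jp⁻¹ * G.toBlocks₁₂))ᵀ 1 := by
      show (fromBlocks 1 (-(Jp⁻¹ * G.toBlocks₁₂)) 0 1)ᵀ = _
      rw [fromBlocks_transpose, transpose_one, transpose_one, transpose_zero]
    rw [Matrix.mul_assoc, hGT, h3, fromBlocks_multiply, Matrix.one_mul, Matrix.zero_mul, add_zero,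
      Matrix.zero_mul, Matrix.mul_zero, add_zero]
    exact ⟨_, _, rfl⟩
  obtain ⟨B, D, hb⟩ := hb
  rw [hb] at hG1
  have h4 := hG1.symm
  rw [one_smul, fromBlocks_transpose] at h4
  have h5 := (fromBlocks_inj.mp h4).2.2.1
  rw [transpose_zero] at h5
  rw [← h5] at hb hG1
  exact ⟨T, D, hT1, hb, (isForm_of_blocks hG1).2⟩

/-- Witt extension with determinant one -/
lemma ext_isom [IsAlgClosed k] [CharZero k] (hE : ST_EQV k) (hR : ST_REFL k) {q : Type} [Fintype q]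
    [DecidableEq q] [Nonempty q] {Jp : Matrix a a k} {Jq : Matrix q q k} (hp : IsForm 1 Jp)
    (hq : IsForm 1 Jq) (hc : Fintype.card (a ⊕ b) = Fintype.card q)
    {u : Matrix (a ⊕ q) (a ⊕ (a ⊕ b)) k} (hu : uᵀ * fromBlocks Jp 0 0 Jq * u = Lm k a b)
    (F : Matrix (a ⊕ b) a k) (al : Matrix a a k) (hal : alᵀ * Sf F * al = Jp) :
    ∃ g : IsoG (fromBlocks Jp 0 0 Jq),
      isoHom _ g * e1 k a q = u * (gr F * al) := by
  have hJ := isForm_blocks hp hq
  have hald : al.det ≠ 0 := by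
    intro h0
    apply hp.det_ne
    rw [← hal, det_mul, h0, mul_zero]
  -- completion to an invertible matrix
  let Y : Matrix (a ⊕ (a ⊕ b)) (a ⊕ (a ⊕ b)) k := fromBlocks al 0 (F * al) 1
  have hYd : Y.det ≠ 0 := by
    show (fromBlocks al 0 (F * al) 1).det ≠ 0
    rw [det_fromBlocks_zero₁₂, det_one, mul_one]
    exact hald
  have hY1 : Y * e1 k a (a ⊕ b) = gr F * al := by
    rw [gr_mul]
    exact blocks_e1 _ _ _ _
  have hG0 := isForm_gram (isForm_Lm (k := k) (a := a) (b := b)) hYd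
  have hG11 : (e1 k a (a ⊕ b))ᵀ * (Yᵀ * Lm k a b * Y) * e1 k a (a ⊕ b) = Jp := by
    calc (e1 k a (a ⊕ b))ᵀ * (Yᵀ * Lm k a b * Y) * e1 k a (a ⊕ b)
        = (Y * e1 k a (a ⊕ b))ᵀ * Lm k a b * (Y * e1 k a (a ⊕ b)) := by
          rw [transpose_mul]; simp only [Matrix.mul_assoc]
      _ = Jp := by rw [hY1, Lm_gram, hal]
  obtain ⟨T, D, hT1, hT, hD⟩ := split_form hp.det_ne hG0 hG11
  obtain ⟨de, hde⟩ := hE (a ⊕ b) q 1 _ _ hD hq hc
  let X : Matrix (a ⊕ q) (a ⊕ q) k := u * (Y * (T * bd1 a de))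
  have hX1 : X * e1 k a q = u * (gr F * al) := by
    show u * (Y * (T * bd1 a de)) * e1 k a q = _
    rw [Matrix.mul_assoc, Matrix.mul_assoc, Matrix.mul_assoc, bd1_e1, hT1, hY1]
  have hX : Xᵀ * fromBlocks Jp 0 0 Jq * X = fromBlocks Jp 0 0 Jq := by
    calc Xᵀ * fromBlocks Jp 0 0 Jq * X
        = (bd1 a de)ᵀ * (Tᵀ * (Yᵀ * (uᵀ * fromBlocks Jp 0 0 Jq * u) * Y) * T) * bd1 a de := by
          show (u * (Y * (T * bd1 a de)))ᵀ * fromBlocks Jp 0 0 Jq *
            (u * (Y * (T * bd1 a de))) = _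
          rw [transpose_mul, transpose_mul, transpose_mul]
          simp only [Matrix.mul_assoc]
      _ = fromBlocks Jp 0 0 Jq := by rw [hu, hT, bd1_gram, hde]
  rcases det_sq_of_isom hJ.det_ne hX with h1 | h1
  · exact ⟨⟨⟨X, h1⟩, hX⟩, hX1⟩
  · obtain ⟨r, hr1, hr2⟩ := hR q Jq hq
    have h2 : (X * bd1 a r).det = 1 := by
      rw [det_mul, h1, det_bd1, hr2]
      ring
    have h3 : (X * bd1 a r)ᵀ * fromBlocks Jp 0 0 Jq * (X * bd1 a r) =
        fromBlocks Jp 0 0 Jq := by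
      calc (X * bd1 a r)ᵀ * fromBlocks Jp 0 0 Jq * (X * bd1 a r)
          = (bd1 a r)ᵀ * (Xᵀ * fromBlocks Jp 0 0 Jq * X) * bd1 a r := by
            rw [transpose_mul]; simp only [Matrix.mul_assoc]
        _ = fromBlocks Jp 0 0 Jq := by rw [hX, bd1_gram, hr1]
    refine ⟨⟨⟨X * bd1 a r, h2⟩, h3⟩, ?_⟩
    show X * bd1 a r * e1 k a q = _
    rw [Matrix.mul_assoc, bd1_e1, hX1]

end Form2

section Corner

variable {R : Type*} [CommRing R] {p : ℕ}

/-- matrices which agree outside of the corner -/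
lemma det_off (S S' : Matrix (Fin (p + 1)) (Fin (p + 1)) R)
    (h : ∀ i j, ¬ (i = 0 ∧ j = 0) → S i j = S' i j) :
    S.det - S'.det = (S 0 0 - S' 0 0) * (S.submatrix Fin.succ Fin.succ).det := by
  have h1 : ∀ j : Fin (p + 1), (S.submatrix Fin.succ j.succAbove) =
      S'.submatrix Fin.succ j.succAbove := by
    intro j
    ext x y
    exact h _ _ fun h2 => Fin.succ_ne_zero _ h2.1
  rw [det_succ_row_zero S, det_succ_row_zero S', Fin.sum_univ_succ, Fin.sum_univ_succ]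
  have h2 : ∑ i : Fin p, (-1) ^ ((i.succ : Fin (p + 1)) : ℕ) * S 0 i.succ *
      (S.submatrix Fin.succ i.succ.succAbove).det =
      ∑ i : Fin p, (-1) ^ ((i.succ : Fin (p + 1)) : ℕ) * S' 0 i.succ *
      (S'.submatrix Fin.succ i.succ.succAbove).det := by
    refine Finset.sum_congr rfl fun i _ => ?_
    rw [h1, h 0 i.succ fun h3 => Fin.succ_ne_zero _ h3.2]
  rw [h2, ← h1 0]
  simp only [Fin.val_zero, pow_zero, one_mul, Fin.succAbove_zero]
  ring

variable {b : Type} [Fintype b]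

lemma Sf_off {F F' : Matrix (Fin (p + 1) ⊕ b) (Fin (p + 1)) R}
    (h : ∀ i j, ¬ (i = Sum.inl 0 ∧ j = 0) → F i j = F' i j) (i j : Fin (p + 1))
    (hij : ¬ (i = 0 ∧ j = 0)) : Sf F i j = Sf F' i j := by
  rw [Sf_apply, Sf_apply, h (Sum.inl j) i fun h1 => hij ⟨h1.2, Sum.inl_injective h1.1⟩,
    h (Sum.inl i) j fun h1 => hij ⟨Sum.inl_injective h1.1, h1.2⟩]
  have h2 : ∀ l j, F (Sum.inr l) j = F' (Sum.inr l) j := fun l j => h _ _ fun h3 => by
    exact absurd h3.1 (by simp)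
  simp only [h2]

lemma Sf_corner {F F' : Matrix (Fin (p + 1) ⊕ b) (Fin (p + 1)) R}
    (h : ∀ i j, ¬ (i = Sum.inl 0 ∧ j = 0) → F i j = F' i j) :
    Sf F 0 0 - Sf F' 0 0 = 2 * (F (Sum.inl 0) 0 - F' (Sum.inl 0) 0) := by
  rw [Sf_apply, Sf_apply]
  have h2 : ∀ l j, F (Sum.inr l) j = F' (Sum.inr l) j := fun l j => h _ _ fun h3 => by
    exact absurd h3.1 (by simp)
  simp only [h2]
  ring

/-- the minor -/
def mn (F : Matrix (Fin (p + 1) ⊕ b) (Fin (p + 1)) R) : R :=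
  ((Sf F).submatrix Fin.succ Fin.succ).det

lemma mn_off {F F' : Matrix (Fin (p + 1) ⊕ b) (Fin (p + 1)) R}
    (h : ∀ i j, ¬ (i = Sum.inl 0 ∧ j = 0) → F i j = F' i j) : mn F = mn F' := by
  unfold mn
  congr 1
  ext x y
  exact Sf_off h _ _ fun h1 => Fin.succ_ne_zero _ h1.1

lemma det_Sf_off {F F' : Matrix (Fin (p + 1) ⊕ b) (Fin (p + 1)) R}
    (h : ∀ i j, ¬ (i = Sum.inl 0 ∧ j = 0) → F i j = F' i j) :
    (Sf F).det - (Sf F').det = 2 * (F (Sum.inl 0) 0 - F' (Sum.inl 0) 0) * mn F := by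
  rw [det_off _ _ (Sf_off h), Sf_corner h]
  rfl

end Corner

section Pt

variable {k : Type u} [Field k] {p : ℕ} {b : Type} [Fintype b]

lemma q0_formula {Jp al : Matrix (Fin (p + 1)) (Fin (p + 1)) k}
    {F : Matrix (Fin (p + 1) ⊕ b) (Fin (p + 1)) k} (hp : Jp.det ≠ 0)
    (h : alᵀ * Sf F * al = Jp) :
    (al * Jp⁻¹ * alᵀ) 0 0 * (Sf F).det = mn F := by
  have hpu : IsUnit Jp.det := isUnit_iff_ne_zero.mpr hp
  have hd := congrArg det h
  rw [det_mul, det_mul, det_transpose] at hd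
  have hal : al.det ≠ 0 := by
    intro h0
    apply hp
    rw [← hd, h0, mul_zero]
  have hS : (Sf F).det ≠ 0 := by
    intro h0
    apply hp
    rw [← hd, h0, mul_zero, zero_mul]
  have hau : IsUnit (alᵀ).det := by
    rw [det_transpose]; exact isUnit_iff_ne_zero.mpr hal
  have h1 : Sf F * (al * Jp⁻¹ * alᵀ) = 1 := by
    have h2 : alᵀ * (Sf F * (al * Jp⁻¹ * alᵀ)) = alᵀ * 1 := by
      calc alᵀ * (Sf F * (al * Jp⁻¹ * alᵀ)) = (alᵀ * Sf F * al) * Jp⁻¹ * alᵀ := by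
            simp only [Matrix.mul_assoc]
        _ = alᵀ * 1 := by rw [h, mul_nonsing_inv _ hpu, Matrix.one_mul, Matrix.mul_one]
    have h3 := congrArg (fun m => (alᵀ)⁻¹ * m) h2
    simp only [← Matrix.mul_assoc, nonsing_inv_mul _ hau, Matrix.one_mul] at h3
    simp only [← Matrix.mul_assoc]
    exact h3
  have h4 : al * Jp⁻¹ * alᵀ = (Sf F)⁻¹ := (inv_eq_right_inv h1).symm
  have h5 : (Sf F).adjugate 0 0 = mn F := by
    rw [adjugate_fin_succ_eq_det_submatrix]
    simp only [Fin.val_zero, add_zero, pow_zero, one_mul, Fin.succAbove_zero]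
    rfl
  rw [h4, Matrix.inv_def, Matrix.smul_apply, Ring.inverse_eq_inv', smul_eq_mul, h5]
  field_simp

end Pt

end Pool.Agent.Helper96.SPN
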