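import Mathlib

set_option autoImplicit false

/-!
# Square roots of invertible matrices as polynomials in the matrix
-/

namespace Pool.Agent.Helper96.SPN

open Polynomial

/-- a square root of `X` modulo `p`, when `0` is not a root of `p` -/
lemma sqrt_mod {k : Type*} [Field k] [IsAlgClosed k] [CharZero k] (p : k[X]) (hp : p ≠ 0)
    (h0 : ∀ a ∈ p.roots, a ≠ 0) : ∃ q : k[X], p ∣ q ^ 2 - X := by
  classical
  -- square roots at the roots
  choose s hs using fun a : k => IsAlgClosed.exists_pow_nat_eq a (n := 2) (by norm_num)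
  obtain ⟨L, hL⟩ : ∃ L : k[X], ∀ a ∈ p.roots, L.eval a = s a := by
    refine ⟨Lagrange.interpolate p.roots.toFinset id s, fun a ha => ?_⟩
    exact Lagrange.eval_interpolate_at_node (v := id) s Function.injective_id.injOn
      (Multiset.mem_toFinset.mpr ha)
  -- `L ^ 2 - X` is nilpotent modulo `p`
  have hnil : p ∣ (L ^ 2 - X) ^ Multiset.card p.roots := by
    have h1 : (p.roots.map fun a => X - C a).prod ∣ (p.roots.map fun _ => L ^ 2 - X).prod := by
      refine Multiset.prod_dvd_prod_of_dvd _ _ fun a ha => ?_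
      rw [dvd_iff_isRoot, IsRoot.def, eval_sub, eval_pow, eval_X, hL a ha, hs, sub_self]
    rw [Multiset.map_const', Multiset.prod_replicate] at h1
    have h2 := (IsAlgClosed.splits p).eq_prod_roots
    have h3 : IsUnit (C p.leadingCoeff) :=
      isUnit_C.mpr (isUnit_iff_ne_zero.mpr (leadingCoeff_ne_zero.mpr hp))
    conv_lhs => rw [h2]
    exact h3.mul_left_dvd.mpr h1
  -- `L` is invertible modulo `p`
  have hcop : IsCoprime L p := by
    refine (isCoprime_iff_aeval_ne_zero_of_isAlgClosed (k := k) k L p).mpr fun a => ?_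
    by_cases ha : p.IsRoot a
    · left
      have h1 : a ∈ p.roots := (mem_roots hp).mpr ha
      rw [coe_aeval_eq_eval, hL a h1]
      intro h2
      have h3 := hs a
      rw [h2, zero_pow two_ne_zero] at h3
      exact h0 a h1 h3.symm
    · right
      rw [coe_aeval_eq_eval]
      exact ha
  let S := AdjoinRoot p
  have hev : ∀ r : S, aeval r ((X : S[X]) ^ 2 - C (AdjoinRoot.root p)) =
      r ^ 2 - AdjoinRoot.root p := by
    intro r
    rw [map_sub, map_pow, aeval_X, aeval_C]
    rfl
  have hn : IsNilpotent (aeval (AdjoinRoot.mk p L) ((X : S[X]) ^ 2 - C (AdjoinRoot.root p))) := by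
    refine ⟨Multiset.card p.roots, ?_⟩
    have h1 : aeval (AdjoinRoot.mk p L) ((X : S[X]) ^ 2 - C (AdjoinRoot.root p)) =
        AdjoinRoot.mk p (L ^ 2 - X) := by
      rw [hev, map_sub, map_pow, AdjoinRoot.mk_X]
    rw [h1, ← map_pow]
    exact AdjoinRoot.mk_eq_zero.mpr hnil
  have hu : IsUnit (aeval (AdjoinRoot.mk p L)
      (derivative ((X : S[X]) ^ 2 - C (AdjoinRoot.root p)))) := by
    have h1 : derivative ((X : S[X]) ^ 2 - C (AdjoinRoot.root p)) = C 2 * X := by
      rw [derivative_sub, derivative_C, sub_zero, derivative_X_pow]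
      simp
    rw [h1, map_mul, aeval_C, aeval_X]
    have h2 : IsUnit (AdjoinRoot.mk p L) := by
      obtain ⟨a, b, hab⟩ := hcop
      refine IsUnit.of_mul_eq_one (AdjoinRoot.mk p a) ?_
      have h3 := congrArg (AdjoinRoot.mk p) hab
      rw [map_add, map_mul, map_mul, AdjoinRoot.mk_self, mul_zero, add_zero, map_one] at h3
      rw [mul_comm]
      exact h3
    have h3 : IsUnit (2 : S) := by
      have h4 : (2 : S) = algebraMap k S 2 := by rw [map_ofNat]
      rw [h4]
      exact (isUnit_iff_ne_zero.mpr (two_ne_zero (α := k))).map (algebraMap k S)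
    exact h3.mul h2
  obtain ⟨r, ⟨-, hr⟩, -⟩ := existsUnique_nilpotent_sub_and_aeval_eq_zero hn hu
  obtain ⟨q, rfl⟩ := AdjoinRoot.mk_surjective r
  refine ⟨q, ?_⟩
  rw [hev] at hr
  apply AdjoinRoot.mk_eq_zero.mp
  rw [map_sub, map_pow, AdjoinRoot.mk_X]
  exact hr

/-- An invertible matrix has a square root which is a polynomial in the matrix. -/
theorem sqrt_poly {k : Type*} [Field k] [IsAlgClosed k] [CharZero k] {n : Type*} [Fintype n]
    [DecidableEq n] (A : Matrix n n k) (hA : A.det ≠ 0) : ∃ q : k[X], aeval A q ^ 2 = A := by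
  have hp : A.charpoly ≠ 0 := A.charpoly_monic.ne_zero
  obtain ⟨q, hq⟩ := sqrt_mod A.charpoly hp (by
    rintro a ha rfl
    apply hA
    have h1 := (mem_roots hp).mp ha
    rw [IsRoot.def, ← coeff_zero_eq_eval_zero] at h1
    rw [Matrix.det_eq_sign_charpoly_coeff, h1, mul_zero])
  refine ⟨q, ?_⟩
  obtain ⟨c, hc⟩ := hq
  have h1 := congrArg (aeval A) hc
  rw [map_sub, map_pow, aeval_X, map_mul, Matrix.aeval_self_charpoly, zero_mul] at h1
  exact sub_eq_zero.mp h1

end Pool.Agent.Helper96.SPN
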